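import Pool.Agent.Helper49.ADV.Lin

/-! # [ADV] leaf BF: the radial component of the field -/

set_option autoImplicit false

namespace Pool.Agent.Helper49.ADV

open Set Metric Filter Topology

/-- the radial component of `c` along `e` -/
noncomputable def bf {n : ℕ} (e : E n) (c : E n → E n) (r : ℝ) : ℝ := inner ℝ (c (cl r • e)) e

variable {n : ℕ} {e : E n} {c : E n → E n}

theorem bf_continuous (he : ‖e‖ = 1) (hc : ContDiffOn ℝ 1 c (closedBall 0 1)) :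
    Continuous (bf e c) := sorry

theorem bf_deriv (he : ‖e‖ = 1) (hc : ContDiffOn ℝ 1 c (closedBall 0 1)) :
    ∃ (b' : ℝ → ℝ) (B1 : ℝ), (∀ r ∈ Ioo (0 : ℝ) 1, HasDerivAt (bf e c) (b' r) r) ∧
      ∀ r ∈ Ioo (0 : ℝ) 1, |b' r| ≤ B1 := sorry

theorem bf_inner (he : ‖e‖ = 1) (hr : ∀ x ∈ closedBall (0 : E n) 1, ∀ y ∈ closedBall (0 : E n) 1,
    ‖x‖ = ‖y‖ → inner ℝ (c x) x = inner ℝ (c y) y) {x : E n} (hx : x ∈ closedBall (0 : E n) 1) :
    inner ℝ (c x) x = ‖x‖ * bf e c ‖x‖ := sorry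

end Pool.Agent.Helper49.ADV
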