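import Pool.Agent.Helper49.ADV.Defs

/-! # [ADV] leaf RAD: radial functions are `C²`, gradient and Laplacian

Gradient field: `-(v r / r) x` (also at `0`), second derivative
`-(G |y|²) - (G' / r) ⟨x, y⟩²`, `G = v / r`, `r G' = v1 - v / r → 0`. -/

set_option autoImplicit false

namespace Pool.Agent.Helper49.ADV

open Set Metric Filter Topology

namespace Radial

/-- `v r / r`, with the value `g0` at `0` -/
noncomputable def AA (v : ℝ → ℝ) (g0 : ℝ) (r : ℝ) : ℝ := if r = 0 then g0 else v r / r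

/-- the gradient -/
noncomputable def gr {n : ℕ} (v : ℝ → ℝ) (g0 : ℝ) (x : E n) : E n := (-(AA v g0 ‖x‖)) • x

/-- the second derivative -/
noncomputable def KK {n : ℕ} (v v1 : ℝ → ℝ) (g0 : ℝ) (x : E n) : E n →L[ℝ] E n :=
  (-(AA v g0 ‖x‖)) • ContinuousLinearMap.id ℝ (E n) -
    ((v1 ‖x‖ - AA v g0 ‖x‖) / ‖x‖ ^ 2) • (innerSL ℝ x).smulRight x

variable {n : ℕ} {U v v1 : ℝ → ℝ} {g0 : ℝ}

lemma AA_ne {r : ℝ} (hr : r ≠ 0) : AA v g0 r = v r / r := if_neg hr

lemma AA_zero : AA v g0 0 = g0 := if_pos rfl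

lemma norm_fd {x : E n} (hx : x ≠ 0) : HasFDerivAt (fun y : E n => ‖y‖) (‖x‖⁻¹ • innerSL ℝ x) x := by
  have h := (hasStrictFDerivAt_norm_sq (F := E n) x).hasFDerivAt
  have hx2 : ‖x‖ ^ 2 ≠ 0 := pow_ne_zero 2 (norm_ne_zero_iff.2 hx)
  have h2 := h.sqrt hx2
  have e : (fun y : E n => √(‖y‖ ^ 2)) = fun y : E n => ‖y‖ := by
    funext y; exact Real.sqrt_sq (norm_nonneg y)
  rw [e, Real.sqrt_sq (norm_nonneg x)] at h2
  refine HasFDerivAt.congr_fderiv h2 ?_
  ext1 y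
  have hx1 : ‖x‖ ≠ 0 := norm_ne_zero_iff.2 hx
  change (1 / (2 * ‖x‖)) * ((2 : ℕ) • inner ℝ x y) = ‖x‖⁻¹ * inner ℝ x y
  rw [nsmul_eq_mul]
  push_cast
  field_simp

lemma mem_Ioo {x : E n} (hx : x ∈ ball (0 : E n) 1) (h0 : x ≠ 0) : ‖x‖ ∈ Ioo (0 : ℝ) 1 :=
  ⟨norm_pos_iff.2 h0, by simpa using hx⟩

lemma tendsto_AA (h0 : Tendsto (fun r => v r / r) (𝓝[>] 0) (𝓝 g0)) :
    Tendsto (fun x : E n => AA v g0 ‖x‖) (𝓝 0) (𝓝 g0) := by
  rw [Metric.tendsto_nhds_nhds]
  rw [Metric.tendsto_nhdsWithin_nhds] at h0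
  intro ε hε
  obtain ⟨δ, hδ, h⟩ := h0 ε hε
  refine ⟨δ, hδ, fun x hx => ?_⟩
  by_cases hx0 : x = 0
  · subst hx0
    rw [norm_zero, AA_zero, dist_self]; exact hε
  · have hp : 0 < ‖x‖ := norm_pos_iff.2 hx0
    rw [AA_ne hp.ne']
    refine h hp ?_
    rw [dist_zero_right] at hx ⊢
    rwa [norm_norm]

lemma AA_deriv (hv : ∀ r ∈ Ioo (0 : ℝ) 1, HasDerivAt v (v1 r) r) {r : ℝ} (hr : r ∈ Ioo (0 : ℝ) 1) :
    HasDerivAt (AA v g0) ((v1 r - v r / r) / r) r := by
  have h := (hv r hr).div (hasDerivAt_id r) hr.1.ne'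
  have h2 : HasDerivAt (fun r => v r / r) ((v1 r - v r / r) / r) r := by
    refine HasDerivAt.congr_deriv h ?_
    have := hr.1.ne'
    simp only [id]
    field_simp
  refine h2.congr_of_eventuallyEq ?_
  filter_upwards [isOpen_ne.mem_nhds hr.1.ne'] with s hs
  exact AA_ne hs

/-- first derivative away from `0` -/
lemma fd_ne (hU' : ∀ r ∈ Ioo (0 : ℝ) 1, HasDerivAt U (-(v r)) r) {x : E n}
    (hx : x ∈ ball (0 : E n) 1) (h0 : x ≠ 0) :
    HasFDerivAt (fun x : E n => U ‖x‖) (innerSL ℝ (gr v g0 x)) x := by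
  have h := (hU' ‖x‖ (mem_Ioo hx h0)).comp_hasFDerivAt x (norm_fd h0)
  refine HasFDerivAt.congr_fderiv h ?_
  ext y
  rw [gr, AA_ne (norm_ne_zero_iff.2 h0)]
  simp only [ContinuousLinearMap.smul_apply, smul_eq_mul, innerSL_apply_apply, inner_smul_left]
  simp only [map_neg, conj_trivial]
  ring

/-- first derivative at `0` -/
lemma fd_zero (hU : ContinuousOn U (Icc 0 1))
    (hU' : ∀ r ∈ Ioo (0 : ℝ) 1, HasDerivAt U (-(v r)) r)
    (h0 : Tendsto (fun r => v r / r) (𝓝[>] 0) (𝓝 g0)) :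
    HasFDerivAt (fun x : E n => U ‖x‖) (innerSL ℝ (gr v g0 (0 : E n))) 0 := by
  have hI : Ioo (0 : ℝ) 1 ∈ 𝓝[>] (0 : ℝ) := Ioo_mem_nhdsGT one_pos
  have hv0 : Tendsto (fun r => -(v r)) (𝓝[>] 0) (𝓝 0) := by
    have h1 : Tendsto (fun r : ℝ => r * (v r / r)) (𝓝[>] 0) (𝓝 (0 * g0)) :=
      (tendsto_nhdsWithin_of_tendsto_nhds tendsto_id).mul h0
    rw [zero_mul] at h1
    have h2 := h1.neg
    rw [neg_zero] at h2
    refine h2.congr' ?_
    filter_upwards [self_mem_nhdsWithin] with r hr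
    have : r ≠ 0 := (mem_Ioi.1 hr).ne'
    field_simp
  have hd : HasDerivWithinAt U 0 (Ici 0) 0 := by
    refine hasDerivWithinAt_Ici_of_tendsto_deriv (s := Ioo 0 1) ?_ ?_ hI ?_
    · exact fun r hr => (hU' r hr).differentiableAt.differentiableWithinAt
    · exact (hU 0 ⟨le_rfl, zero_le_one⟩).mono Ioo_subset_Icc_self
    · refine hv0.congr' ?_
      filter_upwards [hI] with r hr
      exact (hU' r hr).deriv.symm
  have hg : gr v g0 (0 : E n) = 0 := smul_zero _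
  rw [hg, map_zero]
  have hl := hd.hasFDerivWithinAt.isLittleO
  have hn : Tendsto (fun x : E n => ‖x‖) (𝓝 0) (𝓝[Ici 0] 0) := by
    refine tendsto_nhdsWithin_iff.2 ⟨?_, Eventually.of_forall fun x => norm_nonneg x⟩
    simpa using (continuous_norm (E := E n)).tendsto 0
  have hl2 := hl.comp_tendsto hn
  refine HasFDerivAt.of_isLittleO ?_
  have hl3 : (fun x : E n => U ‖x‖ - U ‖(0 : E n)‖ - (0 : E n →L[ℝ] ℝ) (x - 0)) =o[𝓝 0]
      fun x : E n => ‖x‖ := by
    refine hl2.congr ?_ ?_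
    · intro x; simp
    · intro x; simp
  refine hl3.trans_isBigO ?_
  simpa using (Asymptotics.isBigO_refl (fun x : E n => x) (𝓝 0)).norm_left

/-- second derivative away from `0` -/
lemma gr_ne (hv : ∀ r ∈ Ioo (0 : ℝ) 1, HasDerivAt v (v1 r) r) {x : E n}
    (hx : x ∈ ball (0 : E n) 1) (h0 : x ≠ 0) :
    HasFDerivAt (gr v g0) (KK v v1 g0 x) x := by
  have hA := ((AA_deriv (g0 := g0) hv (mem_Ioo hx h0)).comp_hasFDerivAt x (norm_fd h0)).neg
  have h := hA.smul (hasFDerivAt_id x)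
  refine HasFDerivAt.congr_fderiv h ?_
  ext1 y
  rw [KK]
  simp only [ContinuousLinearMap.add_apply, ContinuousLinearMap.sub_apply, ContinuousLinearMap.smul_apply,
    ContinuousLinearMap.smulRight_apply, ContinuousLinearMap.neg_apply, smul_eq_mul, innerSL_apply_apply,
    Function.comp_apply, ContinuousLinearMap.id_apply, id, Pi.neg_apply, ContinuousLinearMap.coe_id']
  have hr : ‖x‖ ≠ 0 := norm_ne_zero_iff.2 h0
  rw [sub_eq_add_neg (-(AA v g0 ‖x‖) • y), smul_smul, ← neg_smul, AA_ne hr]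
  congr 2
  field_simp

/-- second derivative at `0` -/
lemma gr_zero (h0 : Tendsto (fun r => v r / r) (𝓝[>] 0) (𝓝 g0)) :
    HasFDerivAt (gr v g0) (KK v v1 g0 (0 : E n)) 0 := by
  refine HasFDerivAt.of_isLittleO ?_
  have hA : Tendsto (fun x : E n => -(AA v g0 ‖x‖ - g0)) (𝓝 0) (𝓝 0) := by
    have := ((tendsto_AA (n := n) h0).sub_const g0).neg
    simpa using this
  have h1 : (fun x : E n => -(AA v g0 ‖x‖ - g0)) =o[𝓝 0] fun _ : E n => (1 : ℝ) :=
    (Asymptotics.isLittleO_one_iff ℝ).2 hA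
  have h2 := h1.smul_isBigO (Asymptotics.isBigO_refl (fun x : E n => x) (𝓝 0))
  refine h2.congr ?_ ?_
  · intro x
    rw [gr, gr, KK]
    simp only [norm_zero, AA_zero, map_zero, sub_zero, smul_zero, ContinuousLinearMap.sub_apply,
      ContinuousLinearMap.smul_apply, ContinuousLinearMap.smulRight_apply, ContinuousLinearMap.zero_apply,
      zero_smul, ContinuousLinearMap.id_apply, ContinuousLinearMap.coe_id', id]
    module
  · intro x; simp

lemma cont_KK (hv : ∀ r ∈ Ioo (0 : ℝ) 1, HasDerivAt v (v1 r) r) (hv1 : ContinuousOn v1 (Ioo 0 1))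
    (h0 : Tendsto (fun r => v r / r) (𝓝[>] 0) (𝓝 g0)) (h1 : Tendsto v1 (𝓝[>] 0) (𝓝 g0)) {x : E n}
    (hx : x ∈ ball (0 : E n) 1) : ContinuousAt (KK v v1 g0) x := by
  by_cases hx0 : x = 0
  · subst hx0
    rw [← continuousWithinAt_compl_self]
    have hn : Tendsto (fun x : E n => ‖x‖) (𝓝[≠] 0) (𝓝[>] 0) := tendsto_norm_nhdsNE_zero
    have hA : Tendsto (fun x : E n => AA v g0 ‖x‖) (𝓝[≠] 0) (𝓝 g0) :=
      (tendsto_AA (n := n) h0).mono_left nhdsWithin_le_nhds
    have hB : Tendsto (fun x : E n => v1 ‖x‖ - AA v g0 ‖x‖) (𝓝[≠] 0) (𝓝 0) := by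
      have := (h1.comp hn).sub hA
      simpa using this
    have hC : Tendsto (fun x : E n => ((v1 ‖x‖ - AA v g0 ‖x‖) / ‖x‖ ^ 2) •
        (innerSL ℝ x).smulRight x) (𝓝[≠] 0) (𝓝 0) := by
      refine squeeze_zero_norm' ?_ (hB.norm.trans (by rw [norm_zero]))
      filter_upwards [self_mem_nhdsWithin] with x hx
      have hr : 0 < ‖x‖ := norm_pos_iff.2 hx
      rw [norm_smul, ContinuousLinearMap.norm_smulRight_apply, innerSL_apply_norm, norm_div, norm_pow,
        norm_norm]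
      refine le_of_eq ?_
      field_simp
    have hD := ((hA.neg).smul_const (ContinuousLinearMap.id ℝ (E n))).sub hC
    have e : KK v v1 g0 (0 : E n) = (-g0) • ContinuousLinearMap.id ℝ (E n) - 0 := by
      rw [KK, norm_zero, AA_zero]
      simp
    unfold ContinuousWithinAt
    rw [e]
    exact hD
  · have hr := mem_Ioo hx hx0
    have hnc : ContinuousAt (fun y : E n => ‖y‖) x := continuous_norm.continuousAt
    have hA : ContinuousAt (fun y : E n => AA v g0 ‖y‖) x :=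
      (AA_deriv (g0 := g0) hv hr).continuousAt.comp hnc
    have hB : ContinuousAt (fun y : E n => v1 ‖y‖) x :=
      ((hv1.continuousAt (isOpen_Ioo.mem_nhds hr))).comp hnc
    have hE : ContinuousAt (fun y : E n => (innerSL ℝ y).smulRight y) x := by
      have h2 : Continuous fun y : E n => (innerSL ℝ y).smulRight y := by
        exact (ContinuousLinearMap.smulRightL ℝ (E n) (E n)).isBoundedBilinearMap.continuous.comp
          ((innerSL ℝ).continuous.prodMk continuous_id)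
      exact h2.continuousAt
    exact (hA.neg.smul continuousAt_const).sub
      (((hB.sub hA).div (hnc.pow 2) (pow_ne_zero 2 hr.1.ne')).smul hE)

end Radial

open Radial in
theorem radial_c2 {n : ℕ} {U v v1 : ℝ → ℝ} {g0 : ℝ} (hU : ContinuousOn U (Icc 0 1))
    (hU' : ∀ r ∈ Ioo (0 : ℝ) 1, HasDerivAt U (-(v r)) r)
    (hv : ∀ r ∈ Ioo (0 : ℝ) 1, HasDerivAt v (v1 r) r) (hv1 : ContinuousOn v1 (Ioo 0 1))
    (h0 : Tendsto (fun r => v r / r) (𝓝[>] 0) (𝓝 g0)) (h1 : Tendsto v1 (𝓝[>] 0) (𝓝 g0)) :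
    ContDiffOn ℝ 2 (fun x : E n => U ‖x‖) (ball 0 1) ∧
    (∀ x ∈ ball (0 : E n) 1, ∀ y, fderiv ℝ (fun x : E n => U ‖x‖) x y = -(v ‖x‖ / ‖x‖) * inner ℝ x y) ∧
    (∀ x ∈ ball (0 : E n) 1, x ≠ 0 →
      lap (fun x : E n => U ‖x‖) x = -(v1 ‖x‖ + ((n : ℝ) - 1) * (v ‖x‖ / ‖x‖))) ∧
    lap (fun x : E n => U ‖x‖) 0 = -((n : ℝ) * g0) := by
  have hF : ∀ x ∈ ball (0 : E n) 1,
      HasFDerivAt (fun x : E n => U ‖x‖) (innerSL ℝ (gr v g0 x)) x := by
    intro x hx
    by_cases hx0 : x = 0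
    · subst hx0; exact fd_zero hU hU' h0
    · exact fd_ne hU' hx hx0
  have hG : ∀ x ∈ ball (0 : E n) 1, HasFDerivAt (gr v g0) (KK v v1 g0 x) x := by
    intro x hx
    by_cases hx0 : x = 0
    · subst hx0; exact gr_zero h0
    · exact gr_ne hv hx hx0
  have hGc : ContDiffOn ℝ 1 (gr v g0) (ball (0 : E n) 1) := by
    rw [show (1 : WithTop ℕ∞) = 0 + 1 from by norm_num,
      contDiffOn_succ_iff_fderiv_of_isOpen isOpen_ball]
    refine ⟨fun x hx => (hG x hx).differentiableAt.differentiableWithinAt, by simp, ?_⟩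
    rw [contDiffOn_zero]
    have : ContinuousOn (KK v v1 g0) (ball (0 : E n) 1) := fun x hx =>
      (cont_KK hv hv1 h0 h1 hx).continuousWithinAt
    exact this.congr fun x hx => (hG x hx).fderiv
  have hlap : ∀ x ∈ ball (0 : E n) 1, lap (fun x : E n => U ‖x‖) x =
      ∑ i : Fin n, inner ℝ (KK v v1 g0 x (EuclideanSpace.single i 1)) (EuclideanSpace.single i (1 : ℝ)) := by
    intro x hx
    unfold lap
    refine Finset.sum_congr rfl fun i _ => ?_
    have e : (fun y => fderiv ℝ (fun x : E n => U ‖x‖) y (EuclideanSpace.single i 1)) =ᶠ[𝓝 x]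
        fun y => inner ℝ (gr v g0 y) (EuclideanSpace.single i (1 : ℝ)) := by
      filter_upwards [isOpen_ball.mem_nhds hx] with y hy
      rw [(hF y hy).fderiv, innerSL_apply_apply]
    rw [e.fderiv_eq]
    have h2 := (hG x hx).inner ℝ (hasFDerivAt_const (EuclideanSpace.single i (1 : ℝ) : E n) x)
    rw [h2.fderiv]
    simp
  refine ⟨?_, ?_, ?_, ?_⟩
  · rw [show (2 : WithTop ℕ∞) = 1 + 1 from by norm_num,
      contDiffOn_succ_iff_fderiv_of_isOpen isOpen_ball]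
    refine ⟨fun x hx => (hF x hx).differentiableAt.differentiableWithinAt, by simp, ?_⟩
    have : ContDiffOn ℝ 1 (fun x : E n => innerSL ℝ (gr v g0 x)) (ball (0 : E n) 1) :=
      (innerSL ℝ (E := E n)).contDiff.comp_contDiffOn hGc
    exact this.congr fun x hx => (hF x hx).fderiv
  · intro x hx y
    rw [(hF x hx).fderiv, innerSL_apply_apply, gr, inner_smul_left]
    by_cases hx0 : x = 0
    · subst hx0; simp
    · rw [AA_ne (norm_ne_zero_iff.2 hx0)]
      simp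
  · intro x hx hx0
    rw [hlap x hx]
    have hr : ‖x‖ ≠ 0 := norm_ne_zero_iff.2 hx0
    have hs : ∑ i : Fin n, (x i) ^ 2 = ‖x‖ ^ 2 := by
      rw [EuclideanSpace.norm_sq_eq]
      simp
    have hterm : ∀ i : Fin n, inner ℝ (KK v v1 g0 x (EuclideanSpace.single i 1))
        (EuclideanSpace.single i (1 : ℝ)) =
        -(v ‖x‖ / ‖x‖) - ((v1 ‖x‖ - v ‖x‖ / ‖x‖) / ‖x‖ ^ 2) * (x i) ^ 2 := by
      intro i
      have hin : ∀ y : E n, inner ℝ y (EuclideanSpace.single i (1 : ℝ)) = y i := fun y => by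
        rw [EuclideanSpace.inner_single_right]; simp
      have hK : KK v v1 g0 x (EuclideanSpace.single i 1) = (-(v ‖x‖ / ‖x‖)) • EuclideanSpace.single i (1 : ℝ) -
          ((v1 ‖x‖ - v ‖x‖ / ‖x‖) / ‖x‖ ^ 2) • (inner ℝ x (EuclideanSpace.single i (1 : ℝ)) • x) := by
        rw [KK, AA_ne hr]; rfl
      rw [hK, inner_sub_left, inner_smul_left, inner_smul_left, inner_smul_left, hin, hin]
      simp only [conj_trivial, EuclideanSpace.single_apply, if_true, mul_one]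
      ring
    simp_rw [hterm]
    rw [Finset.sum_sub_distrib, ← Finset.mul_sum, hs]
    simp
    field_simp
    ring
  · rw [hlap 0 (mem_ball_self one_pos)]
    have hterm : ∀ i : Fin n, inner ℝ (KK v v1 g0 (0 : E n) (EuclideanSpace.single i 1))
        (EuclideanSpace.single i (1 : ℝ)) = -g0 := by
      intro i
      have hin : ∀ y : E n, inner ℝ y (EuclideanSpace.single i (1 : ℝ)) = y i := fun y => by
        rw [EuclideanSpace.inner_single_right]; simp
      rw [hin, KK, norm_zero, AA_zero]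
      simp
    simp_rw [hterm]
    simp

end Pool.Agent.Helper49.ADV
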