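import Pool.Agent.Helper49.ADV.Lin
import Pool.Agent.Helper49.ADV.Rad

/-! # [ADV] leaf CLS: `x ↦ TC n b h ‖x‖` solves the linear problem -/

set_option autoImplicit false

namespace Pool.Agent.Helper49.ADV

open Set Metric Filter Topology

theorem radial_cls {n : ℕ} (hn : 2 ≤ n) {b h : ℝ → ℝ} (hb : Continuous b) (hh : Continuous h)
    {c : E n → E n} (hcb : ∀ x ∈ ball (0 : E n) 1, inner ℝ (c x) x = ‖x‖ * b ‖x‖) :
    ContDiffOn ℝ 2 (fun x : E n => TC n b h ‖x‖) (ball 0 1) ∧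
    ∀ x ∈ ball (0 : E n) 1, -(lap (fun x : E n => TC n b h ‖x‖) x) +
      fderiv ℝ (fun x : E n => TC n b h ‖x‖) x (c x) = h ‖x‖ := sorry

end Pool.Agent.Helper49.ADV
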