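import Mathlib

/-!
# Semilinear problems with advection on the unit ball: definitions
-/

set_option autoImplicit false

namespace Pool.Agent.Helper49.ADV

open Set Metric Filter Topology
open scoped ContDiff

/-- `ℝ^n` -/
abbrev E (n : ℕ) : Type := EuclideanSpace ℝ (Fin n)

/-- the Laplacian `∑ i, ∂_i ∂_i u` -/
noncomputable def lap {n : ℕ} (u : E n → ℝ) (x : E n) : ℝ :=
  ∑ i : Fin n, fderiv ℝ (fun y => fderiv ℝ u y (EuclideanSpace.single i 1)) x (EuclideanSpace.single i 1)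

/-- nonlinearities of type (R) -/
structure TypeR (f : ℝ → ℝ) : Prop where
  smooth : ContDiff ℝ ∞ f
  mono : Monotone f
  convex : ConvexOn ℝ univ f
  zero : f 0 = 1
  super : Tendsto (fun t : ℝ => f t / t) atTop atTop

/-- `u ≥ 0` is a classical solution of `-Δu + c·∇u = lam f(u)` in the unit ball, `u = 0` on the sphere
(`u ≥ 0` is automatic if `f ≥ 0`) -/
structure IsSol (n : ℕ) (c : E n → E n) (f : ℝ → ℝ) (lam : ℝ) (u : E n → ℝ) : Prop where
  cont : ContinuousOn u (closedBall 0 1)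
  smooth : ContDiffOn ℝ 2 u (ball 0 1)
  eqn : ∀ x ∈ ball (0 : E n) 1, -(lap u x) + fderiv ℝ u x (c x) = lam * f (u x)
  bdy : ∀ x ∈ sphere (0 : E n) 1, u x = 0
  nonneg : ∀ x ∈ closedBall (0 : E n) 1, 0 ≤ u x

/-- `u` is the minimal classical solution -/
def IsMin (n : ℕ) (c : E n → E n) (f : ℝ → ℝ) (lam : ℝ) (u : E n → ℝ) : Prop :=
  IsSol n c f lam u ∧ ∀ v, IsSol n c f lam v → ∀ x ∈ closedBall (0 : E n) 1, u x ≤ v x

/-- the extremal parameter -/
noncomputable def lamStar (n : ℕ) (c : E n → E n) (f : ℝ → ℝ) : ℝ :=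
  sSup {lam : ℝ | 0 < lam ∧ ∃ u, IsSol n c f lam u}

/-! ### the radial equation `-(w U')' = w h`, `w = r^(n-1) exp (-∫_0^r b)` -/

/-- the weight -/
noncomputable def wt (n : ℕ) (b : ℝ → ℝ) (r : ℝ) : ℝ :=
  r ^ (n - 1) * Real.exp (-∫ t in (0 : ℝ)..r, b t)

/-- minus the derivative of the solution -/
noncomputable def vv (n : ℕ) (b h : ℝ → ℝ) (r : ℝ) : ℝ :=
  (∫ t in (0 : ℝ)..r, wt n b t * h t) / wt n b r

/-- the solution -/
noncomputable def TT (n : ℕ) (b h : ℝ → ℝ) (r : ℝ) : ℝ := ∫ t in r..1, vv n b h t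

/-- `r` moved into `[0, 1]` -/
noncomputable def cl (r : ℝ) : ℝ := max 0 (min r 1)

/-- the solution, constant outside of `[0, 1]` -/
noncomputable def TC (n : ℕ) (b h : ℝ → ℝ) (r : ℝ) : ℝ := TT n b h (cl r)

/-- radial solutions of the semilinear problem -/
def RS (n : ℕ) (b f : ℝ → ℝ) (lam : ℝ) (U : ℝ → ℝ) : Prop :=
  Continuous U ∧ ∀ r, U r = TC n b (fun t => lam * f (U t)) r

/-- the iteration -/
noncomputable def it (n : ℕ) (b f : ℝ → ℝ) (lam : ℝ) : ℕ → ℝ → ℝ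
  | 0 => fun _ => 0
  | k + 1 => TC n b (fun t => lam * f (it n b f lam k t))

end Pool.Agent.Helper49.ADV
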