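import Pool.Agent.Helper49.ADV.EstC

/-! # [ADV] EST: the a priori bound -/

set_option autoImplicit false

namespace Pool.Agent.Helper49.ADV

open Set Filter Topology

variable {n : ℕ} {b b' f : ℝ → ℝ}

/-- superlinearity: `c f(t) ≤ t` bounds `t` -/
theorem TypeR.bound (hf : TypeR f) {c : ℝ} (hc : 0 < c) :
    ∃ M : ℝ, 0 ≤ M ∧ ∀ t, 0 ≤ t → c * f t ≤ t → t ≤ M := by
  obtain ⟨T, hT⟩ := eventually_atTop.1 (hf.super.eventually_gt_atTop (1 / c))
  refine ⟨max T 1, le_max_of_le_right zero_le_one, fun t _ ht => ?_⟩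
  by_contra hlt
  have hlt' := not_le.1 hlt
  have t0 : 0 < t := lt_of_lt_of_le zero_lt_one ((le_max_right T 1).trans hlt'.le)
  have h1 : 1 / c < f t / t := hT t ((le_max_left _ _).trans hlt'.le)
  rw [lt_div_iff₀ t0] at h1
  have h2 := mul_lt_mul_of_pos_left h1 hc
  rw [← mul_assoc, mul_one_div_cancel hc.ne', one_mul] at h2
  linarith

/-- the linear lower bound -/
theorem TypeR.lower (hf : TypeR f) : ∃ k : ℝ, 0 < k ∧ ∀ t, 0 ≤ t → k * t ≤ f t := by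
  obtain ⟨T, hT⟩ := eventually_atTop.1 (hf.super.eventually_ge_atTop 1)
  have hM : 0 < max T 1 := lt_max_of_lt_right zero_lt_one
  refine ⟨1 / max T 1, by positivity, fun t ht => ?_⟩
  rcases le_or_gt (max T 1) t with h | h
  · have t0 : 0 < t := hM.trans_le h
    have h1 := hT t ((le_max_left _ _).trans h)
    rw [le_div_iff₀ t0, one_mul] at h1
    refine le_trans ?_ h1
    have : 1 / max T 1 ≤ 1 := by
      rw [div_le_one hM]
      exact le_max_right _ _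
    nlinarith
  · refine le_trans ?_ (hf.one_le ht)
    rw [one_div, inv_mul_le_iff₀ hM, mul_one]
    exact h.le

theorem wt_upper (hb : Continuous b) : ∃ c1 : ℝ, 0 < c1 ∧ ∀ r : ℝ, 0 < r → r ≤ 1 → wt n b r ≤ c1 := by
  obtain ⟨c0, c1, -, hc1, hw⟩ := wt_bounds (n := n) hb
  refine ⟨c1, hc1, fun r h0 h1 => (hw r h0 h1).2.trans ?_⟩
  have : r ^ (n - 1) ≤ 1 := pow_le_one₀ h0.le h1
  nlinarith

theorem lam_bdd (hn : 2 ≤ n) (hb : Continuous b) (hf : TypeR f) :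
    ∃ L : ℝ, ∀ lam > 0, ∀ U, RS n b f lam U → (∀ r, 0 ≤ U r) → lam ≤ L := by
  obtain ⟨c1, hc1, hw⟩ := wt_upper (n := n) hb
  obtain ⟨k, hk, hlow⟩ := hf.lower
  have W := Wm_pos (n := n) hb (show (0 : ℝ) < 1 / 2 by norm_num)
  refine ⟨2 * c1 / (k * Wm n b (1 / 2)), fun lam hl U hU hU0 => ?_⟩
  obtain ⟨h1, h2⟩ := key hn hb hf hc1 hw (r0 := 1 / 2) (by norm_num) (by norm_num) hl.le hU hU0
  have h3 : (1 - 1 / 2) / c1 * (lam * f (U (1 / 2)) * Wm n b (1 / 2)) ≤ U (1 / 2) :=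
    (mul_le_mul_of_nonneg_left h1 (by positivity)).trans h2
  have f1 := hf.one_le (hU0 (1 / 2))
  have hU1 : 0 < U (1 / 2) := lt_of_lt_of_le (by positivity) h3
  have h4 := hlow _ hU1.le
  rw [le_div_iff₀ (by positivity)]
  have h5 : (1 - 1 / 2) / c1 * (lam * (k * U (1 / 2)) * Wm n b (1 / 2)) ≤ U (1 / 2) := by
    refine le_trans ?_ h3
    refine mul_le_mul_of_nonneg_left ?_ (by positivity)
    refine mul_le_mul_of_nonneg_right ?_ W.le
    exact mul_le_mul_of_nonneg_left h4 hl.le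
  have h6 : (lam * (k * Wm n b (1 / 2)) / (2 * c1)) * U (1 / 2) ≤ 1 * U (1 / 2) := by
    rw [one_mul]
    refine le_trans (le_of_eq ?_) h5
    field_simp
    ring
  have h7 := le_of_mul_le_mul_right h6 hU1
  rwa [div_le_one (by positivity)] at h7

/-- bounds on `[del, 2 del]` -/
theorem inner_bdd (hn : 2 ≤ n) (hb : Continuous b) (hf : TypeR f) {l0 del : ℝ} (hl0 : 0 < l0)
    (hd : 0 < del) (hd4 : del ≤ 1 / 4) : ∃ C : ℝ, 0 ≤ C ∧ ∀ lam ≥ l0, ∀ U, RS n b f lam U →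
      (∀ r, 0 ≤ U r) → U del ≤ C ∧ ∀ r ∈ Icc del (2 * del), vv n b (rhs f lam U) r ≤ C := by
  obtain ⟨c0, c1', hc0, -, hw'⟩ := wt_bounds (n := n) hb
  obtain ⟨c1, hc1, hw⟩ := wt_upper (n := n) hb
  -- the bound of `U r0`
  have bd : ∀ r0 : ℝ, 0 < r0 → r0 < 1 → ∃ M : ℝ, 0 ≤ M ∧ ∀ lam ≥ l0, ∀ U, RS n b f lam U →
      (∀ r, 0 ≤ U r) → U r0 ≤ M := by
    intro r0 h0 h1
    have W := Wm_pos (n := n) hb h0
    have h1' : 0 < 1 - r0 := by linarith
    obtain ⟨M, M0, hM⟩ := hf.bound (c := (1 - r0) / c1 * (l0 * Wm n b r0)) (by positivity)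
    refine ⟨M, M0, fun lam hl U hU hU0 => hM _ (hU0 _) ?_⟩
    obtain ⟨k1, k2⟩ := key hn hb hf hc1 hw h0 h1 (hl0.le.trans hl) hU hU0
    have f1 := hf.one_le (hU0 r0)
    calc (1 - r0) / c1 * (l0 * Wm n b r0) * f (U r0)
        = (1 - r0) / c1 * (l0 * f (U r0) * Wm n b r0) := by ring
      _ ≤ (1 - r0) / c1 * (lam * f (U r0) * Wm n b r0) := by
          refine mul_le_mul_of_nonneg_left ?_ (by positivity)
          refine mul_le_mul_of_nonneg_right ?_ W.le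
          exact mul_le_mul_of_nonneg_right hl (by linarith)
      _ ≤ U r0 := (mul_le_mul_of_nonneg_left k1 (by positivity)).trans k2
  obtain ⟨M1, M10, hM1⟩ := bd del hd (by linarith)
  obtain ⟨M2, M20, hM2⟩ := bd (2 * del) (by linarith) (by linarith)
  have hd1 : 0 < 1 - 2 * del := by linarith
  set M3 := M2 * c1 / (1 - 2 * del) / (c0 * del ^ (n - 1)) with hM3
  have M30 : 0 ≤ M3 := by positivity
  refine ⟨max M1 M3, le_max_of_le_left M10, fun lam hl U hU hU0 =>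
    ⟨(hM1 lam hl U hU hU0).trans (le_max_left _ _), fun r hr => le_trans ?_ (le_max_right _ _)⟩⟩
  have r0 : 0 < r := hd.trans_le hr.1
  have r1 : r ≤ 1 := by linarith [hr.2]
  have hl' : 0 ≤ lam := hl0.le.trans hl
  obtain ⟨-, k2⟩ := key hn hb hf hc1 hw (r0 := 2 * del) (by linarith) (by linarith) hl' hU hU0
  have h2 := hM2 lam hl U hU hU0
  have hc := rhs_cont hf.cont hU.1 (lam := lam)
  have hJ := J_mono (n := n) hb hc (rhs_nonneg hf hl' hU0) r0 hr.2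
  have hv := vv_rhs_nonneg hn hb hf hl' hU.1 hU0 (r := r) ⟨r0.le, r1⟩
  have h3 : wt n b (2 * del) * vv n b (rhs f lam U) (2 * del) ≤ M2 * c1 / (1 - 2 * del) := by
    rw [le_div_iff₀ hd1]
    have := k2.trans h2
    rw [div_mul_eq_mul_div, div_le_iff₀ hc1] at this
    linarith
  have h4 : c0 * del ^ (n - 1) ≤ wt n b r :=
    le_trans (mul_le_mul_of_nonneg_left (pow_le_pow_left₀ hd.le hr.1 _) hc0.le) (hw' r r0 r1).1
  rw [hM3, le_div_iff₀ (by positivity)]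
  calc vv n b (rhs f lam U) r * (c0 * del ^ (n - 1)) ≤ vv n b (rhs f lam U) r * wt n b r :=
        mul_le_mul_of_nonneg_left h4 hv
    _ = wt n b r * vv n b (rhs f lam U) r := mul_comm _ _
    _ ≤ M2 * c1 / (1 - 2 * del) := hJ.trans h3

/-- the exponent -/
theorem exists_al (hn : 2 ≤ n) (hn9 : n ≤ 9) : ∃ al : ℝ, 0 ≤ al ∧ (n : ℝ) - 4 < al ∧ al < n ∧
    al ^ 2 / 4 < (n : ℝ) - 1 := by
  interval_cases n
  · exact ⟨1, by norm_num⟩
  · exact ⟨2, by norm_num⟩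
  · exact ⟨2, by norm_num⟩
  · exact ⟨3, by norm_num⟩
  · exact ⟨4, by norm_num⟩
  · exact ⟨4, by norm_num⟩
  · exact ⟨5, by norm_num⟩
  · exact ⟨16 / 3, by norm_num⟩

/-- the inner region -/
theorem Two.inner {lam mu : ℝ} {U V : ℝ → ℝ} (T : Two n b b' f lam mu U V) {B1 c0 al del ep : ℝ}
    (hB1 : ∀ r ∈ Ioo (0 : ℝ) 1, |b' r| ≤ B1) (hc0 : 0 < c0)
    (hw : ∀ r : ℝ, 0 < r → r ≤ 1 → c0 * r ^ (n - 1) ≤ wt n b r) (hd : 0 < del) (hd1 : del < 1)
    (hep : 0 < ep) (hde : B1 * del ^ 2 ≤ ep) (h4 : (n : ℝ) - 4 < al) (han : al < n)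
    (hal : al ^ 2 / 4 + 2 * ep ≤ (n : ℝ) - 1) :
    U 0 ≤ Phi n b f lam mu U V (fun r => r ^ (-al)) del / (2 * ep * c0) +
      del ^ (al + 4 - n) / (2 * (al + 4 - n)) + U del := by
  set g : ℝ → ℝ := fun r => r ^ (-al) with hg
  set P := Phi n b f lam mu U V g with hP
  have hm : 0 < al + 4 - (n : ℝ) := by linarith
  have hB0 : 0 ≤ B1 := (abs_nonneg _).trans (hB1 (1 / 2) ⟨by norm_num, by norm_num⟩)
  have key : ∀ r ∈ Ioc (0 : ℝ) del, ∃ D, HasDerivAt (fun r => P r / (2 * ep * c0) +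
      r ^ (al + 4 - n) / (2 * (al + 4 - n)) + U r) D r ∧ 0 ≤ D := by
    intro r hr
    have r0 := hr.1
    have r1 : r < 1 := hr.2.trans_lt hd1
    have hgd : HasDerivAt g (-al * r ^ (-al - 1)) r := Real.hasDerivAt_rpow_const (Or.inl r0.ne')
    have hgr : 0 < g r := Real.rpow_pos_of_pos r0 _
    obtain ⟨D, hD, hlow⟩ := T.Phi_deriv (r := r) (G := al ^ 2 / 4 * r ^ (-al - 2)) ⟨r0, r1⟩ hgd hgr (by
      simp only [hg]
      have e1 : (r ^ (-al - 1)) ^ 2 = r ^ (-al) * r ^ (-al - 2) := by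
        rw [← Real.rpow_natCast, ← Real.rpow_mul r0.le, ← Real.rpow_add r0]
        congr 1
        push_cast
        ring
      rw [mul_pow, e1]
      ring)
    have hd2 : HasDerivAt (fun r : ℝ => r ^ (al + 4 - n) / (2 * (al + 4 - n)))
        ((al + 4 - n) * r ^ (al + 4 - n - 1) / (2 * (al + 4 - n))) r :=
      (Real.hasDerivAt_rpow_const (Or.inl r0.ne')).div_const _
    have hd3 := T.hU.hasDerivAt T.hn T.hb T.hf.cont (r := r) ⟨r0, r1⟩
    refine ⟨_, ((hD.div_const _).fun_add hd2).fun_add hd3, ?_⟩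
    -- the inequality
    set v := vv n b (rhs f lam U) r with hv
    set m : ℝ := (n : ℝ) - 3 - al with hmm
    have e2 : (al + 4 - n) * r ^ (al + 4 - n - 1) / (2 * (al + 4 - n)) = r ^ (-m) / 2 := by
      rw [show al + 4 - (n : ℝ) - 1 = -m by rw [hmm]; ring]
      field_simp
    rw [e2]
    have hX : ep * r ^ (-al - 2) ≤ g r * (((n : ℝ) - 1) / r ^ 2 + b' r) - al ^ 2 / 4 * r ^ (-al - 2) := by
      have e3 : g r = r ^ 2 * r ^ (-al - 2) := by
        simp only [hg]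
        rw [← Real.rpow_natCast, ← Real.rpow_add r0]
        congr 1
        push_cast
        ring
      have e4 : g r * (((n : ℝ) - 1) / r ^ 2 + b' r) - al ^ 2 / 4 * r ^ (-al - 2) =
          ((n : ℝ) - 1 + b' r * r ^ 2 - al ^ 2 / 4) * r ^ (-al - 2) := by
        rw [e3]
        field_simp
      rw [e4]
      refine mul_le_mul_of_nonneg_right ?_ (Real.rpow_pos_of_pos r0 _).le
      have hbr := (abs_le.1 (hB1 r ⟨r0, r1⟩)).1
      have h5 : -(B1 * del ^ 2) ≤ b' r * r ^ 2 := by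
        have h6 : r ^ 2 ≤ del ^ 2 := pow_le_pow_left₀ r0.le hr.2 2
        have h7 : -B1 * r ^ 2 ≤ b' r * r ^ 2 := mul_le_mul_of_nonneg_right hbr (sq_nonneg r)
        have h8 : B1 * r ^ 2 ≤ B1 * del ^ 2 := mul_le_mul_of_nonneg_left h6 hB0
        linarith
      linarith
    have hrm : 0 < r ^ m := Real.rpow_pos_of_pos r0 _
    have e5 : r ^ (-m) = (r ^ m)⁻¹ := Real.rpow_neg r0.le _
    have hlow2 : c0 * ep * r ^ m * v ^ 2 ≤ D := by
      refine le_trans ?_ hlow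
      have e6 : r ^ m = r ^ (n - 1) * r ^ (-al - 2) := by
        rw [← Real.rpow_natCast, ← Real.rpow_add r0]
        congr 1
        have : ((n - 1 : ℕ) : ℝ) = (n : ℝ) - 1 := by
          rw [Nat.cast_sub (by have := T.hn; omega)]
          norm_num
        rw [this, hmm]
        ring
      calc c0 * ep * r ^ m * v ^ 2 = (c0 * r ^ (n - 1)) * (ep * r ^ (-al - 2) * v ^ 2) := by
            rw [e6]
            ring
        _ ≤ wt n b r * ((g r * (((n : ℝ) - 1) / r ^ 2 + b' r) - al ^ 2 / 4 * r ^ (-al - 2)) * v ^ 2) := by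
            refine mul_le_mul (hw r r0 r1.le) (mul_le_mul_of_nonneg_right hX (sq_nonneg v)) ?_
              (wt_pos r0).le
            exact mul_nonneg (mul_nonneg hep.le (Real.rpow_pos_of_pos r0 _).le) (sq_nonneg v)
    have h8 : r ^ m * v ^ 2 / 2 ≤ D / (2 * ep * c0) := by
      rw [le_div_iff₀ (by positivity)]
      calc r ^ m * v ^ 2 / 2 * (2 * ep * c0) = c0 * ep * r ^ m * v ^ 2 := by ring
        _ ≤ D := hlow2
    have h9 : v ≤ r ^ m * v ^ 2 / 2 + r ^ (-m) / 2 := by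
      rw [e5]
      have h10 : 0 ≤ (r ^ m * v - 1) ^ 2 / (2 * r ^ m) := by positivity
      have h11 : (r ^ m * v - 1) ^ 2 / (2 * r ^ m) = r ^ m * v ^ 2 / 2 + (r ^ m)⁻¹ / 2 - v := by
        field_simp
        ring
      linarith
    linarith
  have hmono : MonotoneOn (fun r => P r / (2 * ep * c0) + r ^ (al + 4 - n) / (2 * (al + 4 - n)) + U r)
      (Ioc 0 del) := by
    refine monotoneOn_of_deriv_nonneg (convex_Ioc _ _) ?_ ?_ ?_
    · intro r hr
      obtain ⟨D, hD, -⟩ := key r hr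
      exact hD.continuousAt.continuousWithinAt
    · rw [interior_Ioc]
      intro r hr
      obtain ⟨D, hD, -⟩ := key r ⟨hr.1, hr.2.le⟩
      exact hD.differentiableAt.differentiableWithinAt
    · rw [interior_Ioc]
      intro r hr
      obtain ⟨D, hD, hD2⟩ := key r ⟨hr.1, hr.2.le⟩
      rw [hD.deriv]
      exact hD2
  have hlim : Tendsto (fun r => P r / (2 * ep * c0) + U r) (𝓝[>] 0) (𝓝 (0 / (2 * ep * c0) + U 0)) :=
    ((T.Phi_tendsto han).div_const _).add (T.hU.1.continuousAt.tendsto.mono_left nhdsWithin_le_nhds)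
  rw [zero_div, zero_add] at hlim
  refine le_of_tendsto hlim ?_
  filter_upwards [Ioc_mem_nhdsGT hd] with r hr
  have h12 := hmono hr ⟨hd, le_rfl⟩ hr.2
  simp only at h12
  have h13 : 0 ≤ r ^ (al + 4 - n) / (2 * (al + 4 - n)) :=
    div_nonneg (Real.rpow_pos_of_pos hr.1 _).le (by linarith)
  linarith

theorem apriori (hn : 2 ≤ n) (hn9 : n ≤ 9) (hb : Continuous b) {B1 : ℝ}
    (hb' : ∀ r ∈ Ioo (0 : ℝ) 1, HasDerivAt b (b' r) r) (hB1 : ∀ r ∈ Ioo (0 : ℝ) 1, |b' r| ≤ B1)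
    (hf : TypeR f) {l0 : ℝ} (hl0 : 0 < l0) :
    ∃ M : ℝ, ∀ lam ≥ l0, ∀ mu > lam, ∀ U V, RS n b f lam U → RS n b f mu V → (∀ r, 0 ≤ U r) →
      (∀ r, U r ≤ V r) → U 0 ≤ M := by
  obtain ⟨al, -, h4, han, hal⟩ := exists_al hn hn9
  obtain ⟨c0, c1', hc0, -, hw'⟩ := wt_bounds (n := n) hb
  obtain ⟨c1, hc1, hw⟩ := wt_upper (n := n) hb
  have hB0 : 0 ≤ B1 := (abs_nonneg _).trans (hB1 (1 / 2) ⟨by norm_num, by norm_num⟩)
  set ep := ((n : ℝ) - 1 - al ^ 2 / 4) / 2 with hep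
  have ep0 : 0 < ep := by rw [hep]; linarith
  -- the radius
  obtain ⟨del, hd, hd4, hde⟩ : ∃ del : ℝ, 0 < del ∧ del ≤ 1 / 4 ∧ B1 * del ^ 2 ≤ ep := by
    refine ⟨min (1 / 4) (ep / (B1 + 1)), by positivity, min_le_left _ _, ?_⟩
    have h1 : min (1 / 4) (ep / (B1 + 1)) ≤ ep / (B1 + 1) := min_le_right _ _
    have h2 : min (1 / 4) (ep / (B1 + 1)) ≤ 1 := (min_le_left _ _).trans (by norm_num)
    have h3 : (0 : ℝ) < min (1 / 4) (ep / (B1 + 1)) := by positivity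
    set d := min (1 / 4) (ep / (B1 + 1))
    have h5 : d ^ 2 ≤ d := by nlinarith
    have h6 : B1 * d ^ 2 ≤ B1 * (ep / (B1 + 1)) :=
      mul_le_mul_of_nonneg_left (h5.trans h1) hB0
    refine h6.trans ?_
    rw [mul_div_assoc', div_le_iff₀ (by positivity)]
    nlinarith
  obtain ⟨C, C0, hC⟩ := inner_bdd hn hb hf hl0 hd hd4
  refine ⟨c1 * ((B1 * del ^ (-al) + del ^ (-al) / del ^ 2) * C ^ 2) * del / (2 * ep * c0) +
      del ^ (al + 4 - n) / (2 * (al + 4 - n)) + C, fun lam hl mu hmu U V hU hV hU0 hUV => ?_⟩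
  have T : Two n b b' f lam mu U V := ⟨hn, hb, hb', hf, hl0.trans_le hl, hmu, hU, hV, hU0, hUV⟩
  obtain ⟨hC1, hC2⟩ := hC lam hl U hU hU0
  have h5 := T.inner hB1 hc0 (fun r h0 h1 => (hw' r h0 h1).1) hd (by linarith) ep0 hde h4 han
    (by rw [hep]; linarith)
  have h6 := T.outer (al := al) hB1 hc1 hw hd hd4 hC2
  have h7 := div_le_div_of_nonneg_right h6 (show 0 ≤ 2 * ep * c0 by positivity)
  linarith

end Pool.Agent.Helper49.ADV
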