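import Pool.Agent.Helper49.ADV.Lin

/-! # [ADV] EST, part A: the pointwise inequality -/

set_option autoImplicit false

namespace Pool.Agent.Helper49.ADV

open Set Filter Topology

/-- **The derivative of `Φ = g w v q`, `q = v' - v Z' / Z`.** -/
theorem phi_deriv {w v v1 Z z g : ℝ → ℝ} {r p k N X g' : ℝ}
    (hw : HasDerivAt w (p * w r) r) (hv : HasDerivAt v (v1 r) r)
    (hv1 : HasDerivAt v1 (-(k * v r) + N * v r - p * v1 r) r)
    (hZ : HasDerivAt Z (-(z r)) r) (hz : HasDerivAt z (X - p * z r) r)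
    (hg : HasDerivAt g g' r) (hZ0 : Z r ≠ 0) :
    HasDerivAt (fun r => g r * w r * v r * (v1 r + v r * z r / Z r))
      (w r * (g r * (v1 r + v r * z r / Z r) ^ 2 + g' * v r * (v1 r + v r * z r / Z r) +
        g r * N * v r ^ 2 + g r * v r ^ 2 * (X / Z r - k))) r := by
  have h1 := ((hg.fun_mul hw).fun_mul hv).fun_mul (hv1.fun_add ((hv.fun_mul hz).fun_div hZ hZ0))
  refine h1.congr_deriv ?_
  field_simp
  ring

/-- the lower bound -/
theorem phi_lower {w v q g g' N X Z k G : ℝ} (hw : 0 ≤ w) (hg : 0 < g) (hX : k * Z ≤ X) (hZ : 0 < Z)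
    (hG : g' ^ 2 = 4 * g * G) :
    w * ((g * N - G) * v ^ 2) ≤
      w * (g * q ^ 2 + g' * v * q + g * N * v ^ 2 + g * v ^ 2 * (X / Z - k)) := by
  refine mul_le_mul_of_nonneg_left ?_ hw
  have h1 : 0 ≤ X / Z - k := by
    rw [sub_nonneg, le_div_iff₀ hZ]
    exact hX
  have h2 : 0 ≤ g * v ^ 2 * (X / Z - k) := mul_nonneg (mul_nonneg hg.le (sq_nonneg _)) h1
  have h3 : 0 ≤ g * q ^ 2 + g' * v * q + G * v ^ 2 := by
    have h4 : 0 ≤ 4 * g * (g * q ^ 2 + g' * v * q + G * v ^ 2) := by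
      have : 4 * g * (g * q ^ 2 + g' * v * q + G * v ^ 2) = (2 * g * q + g' * v) ^ 2 := by
        linear_combination (-v ^ 2) * hG
      rw [this]
      exact sq_nonneg _
    exact nonneg_of_mul_nonneg_right h4 (by positivity)
  nlinarith

variable {n : ℕ} {b f : ℝ → ℝ}

/-- the right-hand side of the radial problem -/
noncomputable def rhs (f : ℝ → ℝ) (lam : ℝ) (U : ℝ → ℝ) (t : ℝ) : ℝ := lam * f (U t)

theorem rhs_cont (hf : Continuous f) {lam : ℝ} {U : ℝ → ℝ} (hU : Continuous U) :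
    Continuous (rhs f lam U) := continuous_const.mul (hf.comp hU)

theorem RS.eq {lam : ℝ} {U : ℝ → ℝ} (h : RS n b f lam U) {r : ℝ} (hr : r ∈ Icc (0 : ℝ) 1) :
    U r = TT n b (rhs f lam U) r := by
  rw [h.2 r]
  unfold TC
  rw [cl_of_mem hr]
  rfl

theorem RS.hasDerivAt (hn : 2 ≤ n) (hb : Continuous b) (hf : Continuous f) {lam : ℝ} {U : ℝ → ℝ}
    (h : RS n b f lam U) {r : ℝ} (hr : r ∈ Ioo (0 : ℝ) 1) :
    HasDerivAt U (-(vv n b (rhs f lam U) r)) r := by
  refine (TT_hasDerivAt hn hb (rhs_cont hf h.1) hr).congr_of_eventuallyEq ?_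
  filter_upwards [Ioo_mem_nhds hr.1 hr.2] with t ht
  exact h.eq ⟨ht.1.le, ht.2.le⟩

theorem RS.one {lam : ℝ} {U : ℝ → ℝ} (h : RS n b f lam U) : U 1 = 0 := by
  rw [h.eq ⟨zero_le_one, le_rfl⟩]
  exact TT_one

theorem TypeR.cont (hf : TypeR f) : Continuous f := hf.smooth.continuous

theorem TypeR.one_le (hf : TypeR f) {t : ℝ} (ht : 0 ≤ t) : 1 ≤ f t := by
  rw [← hf.zero]
  exact hf.mono ht

theorem rhs_nonneg (hf : TypeR f) {lam : ℝ} (hl : 0 ≤ lam) {U : ℝ → ℝ} (hU : ∀ r, 0 ≤ U r) (t : ℝ) :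
    0 ≤ rhs f lam U t := mul_nonneg hl (zero_le_one.trans (hf.one_le (hU t)))

theorem vv_zero (r : ℝ) : vv n b (fun _ => 0) r = 0 := by
  unfold vv
  simp

theorem vv_rhs_nonneg (hn : 2 ≤ n) (hb : Continuous b) (hf : TypeR f) {lam : ℝ} (hl : 0 ≤ lam)
    {U : ℝ → ℝ} (hc : Continuous U) (hU : ∀ r, 0 ≤ U r) {r : ℝ} (hr : r ∈ Icc (0 : ℝ) 1) :
    0 ≤ vv n b (rhs f lam U) r := by
  rw [← vv_zero (n := n) (b := b) r]
  exact vv_mono hn hb continuous_const (rhs_cont hf.cont hc) (fun t _ => rhs_nonneg hf hl hU t) hr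

/-- radial solutions decrease -/
theorem RS.anti (hn : 2 ≤ n) (hb : Continuous b) (hf : TypeR f) {lam : ℝ}
    (hl : 0 ≤ lam) {U : ℝ → ℝ} (h : RS n b f lam U) (hU : ∀ r, 0 ≤ U r) : AntitoneOn U (Icc 0 1) := by
  refine antitoneOn_of_deriv_nonpos (convex_Icc 0 1) h.1.continuousOn ?_ ?_
  · rw [interior_Icc]
    exact fun r hr => (h.hasDerivAt hn hb hf.cont hr).differentiableAt.differentiableWithinAt
  · rw [interior_Icc]
    intro r hr
    rw [(h.hasDerivAt hn hb hf.cont hr).deriv, neg_nonpos]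
    exact vv_rhs_nonneg hn hb hf hl h.1 hU ⟨hr.1.le, hr.2.le⟩

/-! ### the integral `J = w v` -/

theorem wt_cont (hb : Continuous b) : Continuous (wt n b) := by
  unfold wt
  exact (continuous_pow _).mul (Real.continuous_exp.comp
    (intervalIntegral.continuous_primitive (fun _ _ => hb.intervalIntegrable _ _) 0).neg)

theorem wt_mul_vv {h : ℝ → ℝ} {r : ℝ} (hr : 0 < r) :
    wt n b r * vv n b h r = ∫ t in (0 : ℝ)..r, wt n b t * h t := by
  unfold vv
  rw [mul_div_cancel₀ _ (wt_pos hr).ne']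

theorem vv_sub (hb : Continuous b) {h₁ h₂ : ℝ → ℝ} (hh₁ : Continuous h₁) (hh₂ : Continuous h₂) (r : ℝ) :
    vv n b h₁ r - vv n b h₂ r = vv n b (fun t => h₁ t - h₂ t) r := by
  have i1 : IntervalIntegrable (fun t => wt n b t * h₁ t) MeasureTheory.volume 0 r :=
    ((wt_cont hb).mul hh₁).intervalIntegrable _ _
  have i2 : IntervalIntegrable (fun t => wt n b t * h₂ t) MeasureTheory.volume 0 r :=
    ((wt_cont hb).mul hh₂).intervalIntegrable _ _
  unfold vv
  rw [← sub_div, ← intervalIntegral.integral_sub i1 i2]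
  congr 1
  refine intervalIntegral.integral_congr fun t _ => ?_
  simp only
  ring

theorem wt_nonneg {r : ℝ} (hr : 0 ≤ r) : 0 ≤ wt n b r :=
  mul_nonneg (pow_nonneg hr _) (Real.exp_pos _).le

/-- `J` increases -/
theorem J_mono (hb : Continuous b) {h : ℝ → ℝ} (hh : Continuous h) (h0 : ∀ t, 0 ≤ h t) {r s : ℝ}
    (hr : 0 < r) (hrs : r ≤ s) : wt n b r * vv n b h r ≤ wt n b s * vv n b h s := by
  rw [wt_mul_vv hr, wt_mul_vv (hr.trans_le hrs)]
  have hc : Continuous fun t => wt n b t * h t := (wt_cont hb).mul hh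
  rw [← intervalIntegral.integral_add_adjacent_intervals (hc.intervalIntegrable 0 r)
    (hc.intervalIntegrable r s)]
  have : 0 ≤ ∫ t in r..s, wt n b t * h t := intervalIntegral.integral_nonneg hrs fun t ht =>
    mul_nonneg (wt_nonneg (hr.le.trans ht.1)) (h0 t)
  linarith

/-- the mass of the weight -/
noncomputable def Wm (n : ℕ) (b : ℝ → ℝ) (r : ℝ) : ℝ := ∫ t in (0 : ℝ)..r, wt n b t

theorem Wm_pos (hb : Continuous b) {r : ℝ} (hr : 0 < r) : 0 < Wm n b r :=
  intervalIntegral.intervalIntegral_pos_of_pos_on ((wt_cont hb).intervalIntegrable _ _)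
    (fun _ ht => wt_pos ht.1) hr

theorem J_lower (hb : Continuous b) {h : ℝ → ℝ} (hh : Continuous h) {m r : ℝ} (hr : 0 < r)
    (hm : ∀ t ∈ Icc (0 : ℝ) r, m ≤ h t) : m * Wm n b r ≤ wt n b r * vv n b h r := by
  rw [wt_mul_vv hr]
  unfold Wm
  rw [← intervalIntegral.integral_const_mul]
  refine intervalIntegral.integral_mono_on hr.le
    (((wt_cont hb).const_mul m |>.intervalIntegrable _ _)) (((wt_cont hb).mul hh).intervalIntegrable _ _)
    fun t ht => ?_
  rw [mul_comm]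
  exact mul_le_mul_of_nonneg_left (hm t ht) (wt_nonneg ht.1)

/-- **The two key inequalities at the radius `r0`.** -/
theorem key (hn : 2 ≤ n) (hb : Continuous b) (hf : TypeR f) {c1 : ℝ} (hc1 : 0 < c1)
    (hw : ∀ r : ℝ, 0 < r → r ≤ 1 → wt n b r ≤ c1) {r0 : ℝ} (h0 : 0 < r0) (h1 : r0 < 1) {lam : ℝ}
    (hl : 0 ≤ lam) {U : ℝ → ℝ} (h : RS n b f lam U) (hU : ∀ r, 0 ≤ U r) :
    lam * f (U r0) * Wm n b r0 ≤ wt n b r0 * vv n b (rhs f lam U) r0 ∧
    (1 - r0) / c1 * (wt n b r0 * vv n b (rhs f lam U) r0) ≤ U r0 := by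
  have hc := rhs_cont hf.cont h.1 (lam := lam)
  constructor
  · refine J_lower hb hc h0 fun t ht => ?_
    refine mul_le_mul_of_nonneg_left (hf.mono ?_) hl
    exact h.anti hn hb hf hl hU ⟨ht.1, ht.2.trans h1.le⟩ ⟨h0.le, h1.le⟩ ht.2
  · set J := wt n b r0 * vv n b (rhs f lam U) r0 with hJ
    have J0 : 0 ≤ J := mul_nonneg (wt_nonneg h0.le) (vv_rhs_nonneg hn hb hf hl h.1 hU ⟨h0.le, h1.le⟩)
    -- `U r + J / c1 * r` decreases on `[r0, 1]`
    have ha : AntitoneOn (fun r => U r + J / c1 * r) (Icc r0 1) := by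
      refine antitoneOn_of_deriv_nonpos (convex_Icc r0 1)
        (h.1.add (continuous_const.mul continuous_id)).continuousOn ?_ ?_
      · rw [interior_Icc]
        intro r hr
        exact ((h.hasDerivAt hn hb hf.cont ⟨h0.trans hr.1, hr.2⟩).differentiableAt.add
          (differentiableAt_id.const_mul _)).differentiableWithinAt
      · rw [interior_Icc]
        intro r hr
        have r0' : 0 < r := h0.trans hr.1
        have hd := (h.hasDerivAt hn hb hf.cont ⟨r0', hr.2⟩).fun_add ((hasDerivAt_id r).const_mul (J / c1))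
        have e : deriv (fun r => U r + J / c1 * r) r = -(vv n b (rhs f lam U) r) + J / c1 * 1 := hd.deriv
        rw [e, mul_one]
        have hv := vv_rhs_nonneg hn hb hf hl h.1 hU (r := r) ⟨r0'.le, hr.2.le⟩
        have hm := J_mono (n := n) hb hc (rhs_nonneg hf hl hU) h0 hr.1.le
        have hwr := hw r r0' hr.2.le
        have : J / c1 ≤ vv n b (rhs f lam U) r := by
          rw [div_le_iff₀ hc1]
          calc J ≤ wt n b r * vv n b (rhs f lam U) r := hm
            _ ≤ c1 * vv n b (rhs f lam U) r := mul_le_mul_of_nonneg_right hwr hv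
            _ = vv n b (rhs f lam U) r * c1 := mul_comm _ _
        linarith
    have h2 := ha ⟨le_rfl, h1.le⟩ ⟨h1.le, le_rfl⟩ h1.le
    simp only [h.one, mul_one, zero_add] at h2
    have h3 : (1 - r0) / c1 * J = J / c1 - J / c1 * r0 := by ring
    rw [h3]
    linarith

end Pool.Agent.Helper49.ADV
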