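import Pool.Agent.Helper49.ADV.EstA

/-! # [ADV] EST, part B: two solutions -/

set_option autoImplicit false

namespace Pool.Agent.Helper49.ADV

open Set Filter Topology

/-- two radial solutions `0 ≤ U ≤ V` with parameters `lam < mu` -/
structure Two (n : ℕ) (b b' f : ℝ → ℝ) (lam mu : ℝ) (U V : ℝ → ℝ) : Prop where
  hn : 2 ≤ n
  hb : Continuous b
  hb' : ∀ r ∈ Ioo (0 : ℝ) 1, HasDerivAt b (b' r) r
  hf : TypeR f
  hl : 0 < lam
  hmu : lam < mu
  hU : RS n b f lam U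
  hV : RS n b f mu V
  hU0 : ∀ r, 0 ≤ U r
  hUV : ∀ r, U r ≤ V r

variable {n : ℕ} {b b' f : ℝ → ℝ} {lam mu : ℝ} {U V : ℝ → ℝ}

/-- the first coefficient -/
noncomputable def pp (n : ℕ) (b : ℝ → ℝ) (r : ℝ) : ℝ := ((n : ℝ) - 1) / r - b r

/-- the derivative of `v` -/
noncomputable def vd (n : ℕ) (b f : ℝ → ℝ) (lam : ℝ) (U : ℝ → ℝ) (r : ℝ) : ℝ :=
  rhs f lam U r - pp n b r * vv n b (rhs f lam U) r

/-- `z = - Z'` -/
noncomputable def zz (n : ℕ) (b f : ℝ → ℝ) (lam mu : ℝ) (U V : ℝ → ℝ) (r : ℝ) : ℝ :=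
  vv n b (rhs f mu V) r - vv n b (rhs f lam U) r

/-- `q = v' - v Z' / Z` -/
noncomputable def qq (n : ℕ) (b f : ℝ → ℝ) (lam mu : ℝ) (U V : ℝ → ℝ) (r : ℝ) : ℝ :=
  vd n b f lam U r + vv n b (rhs f lam U) r * zz n b f lam mu U V r / (V r - U r)

/-- `Φ = g w v q` -/
noncomputable def Phi (n : ℕ) (b f : ℝ → ℝ) (lam mu : ℝ) (U V g : ℝ → ℝ) (r : ℝ) : ℝ :=
  g r * wt n b r * vv n b (rhs f lam U) r * qq n b f lam mu U V r

namespace Two

variable (T : Two n b b' f lam mu U V)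
include T

theorem hV0 (r : ℝ) : 0 ≤ V r := (T.hU0 r).trans (T.hUV r)

theorem cU : Continuous (rhs f lam U) := rhs_cont T.hf.cont T.hU.1

theorem cV : Continuous (rhs f mu V) := rhs_cont T.hf.cont T.hV.1

theorem lt_rhs (r : ℝ) : rhs f lam U r < rhs f mu V r := by
  unfold rhs
  have h1 := T.hf.one_le (T.hV0 r)
  have h2 := T.hf.mono (T.hUV r)
  have h3 := mul_le_mul_of_nonneg_left h2 T.hl.le
  have h4 := mul_pos (sub_pos.2 T.hmu) (zero_lt_one.trans_le h1)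
  nlinarith

/-- convexity -/
theorem convex (r : ℝ) : lam * deriv f (U r) * (V r - U r) ≤ rhs f mu V r - rhs f lam U r := by
  have hd : HasDerivAt f (deriv f (U r)) (U r) :=
    (T.hf.smooth.differentiable (by simp) (U r)).hasDerivAt
  have h1 : deriv f (U r) * (V r - U r) ≤ f (V r) - f (U r) := by
    rcases eq_or_lt_of_le (T.hUV r) with h | h
    · rw [← h]
      simp
    · have := T.hf.convex.le_slope_of_hasDerivAt (mem_univ _) (mem_univ _) h hd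
      rw [slope_def_field, le_div_iff₀ (sub_pos.2 h)] at this
      exact this
  have h2 := mul_le_mul_of_nonneg_left h1 T.hl.le
  have h3 : 0 ≤ (mu - lam) * f (V r) :=
    mul_nonneg (sub_nonneg.2 T.hmu.le) (zero_le_one.trans (T.hf.one_le (T.hV0 r)))
  unfold rhs
  nlinarith

theorem zz_pos {r : ℝ} (hr : r ∈ Ioc (0 : ℝ) 1) : 0 < zz n b f lam mu U V r := by
  unfold zz
  rw [vv_sub T.hb T.cV T.cU]
  exact vv_pos T.hn T.hb (T.cV.sub T.cU) (fun t _ => sub_pos.2 (T.lt_rhs t)) hr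

theorem Z_deriv {r : ℝ} (hr : r ∈ Ioo (0 : ℝ) 1) :
    HasDerivAt (fun r => V r - U r) (-(zz n b f lam mu U V r)) r := by
  refine ((T.hV.hasDerivAt T.hn T.hb T.hf.cont hr).sub (T.hU.hasDerivAt T.hn T.hb T.hf.cont hr)).congr_deriv ?_
  unfold zz
  ring

theorem Z_anti : StrictAntiOn (fun r => V r - U r) (Icc 0 1) := by
  refine strictAntiOn_of_deriv_neg (convex_Icc 0 1) (T.hV.1.sub T.hU.1).continuousOn ?_
  rw [interior_Icc]
  intro r hr
  rw [(T.Z_deriv hr).deriv, neg_lt_zero]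
  exact T.zz_pos ⟨hr.1, hr.2.le⟩

theorem Z_pos {r : ℝ} (hr : r ∈ Ico (0 : ℝ) 1) : 0 < V r - U r := by
  have h := T.Z_anti ⟨hr.1, hr.2.le⟩ ⟨zero_le_one, le_rfl⟩ hr.2
  simp only [T.hU.one, T.hV.one, sub_self] at h
  exact h

theorem v_deriv {r : ℝ} (hr : 0 < r) :
    HasDerivAt (vv n b (rhs f lam U)) (vd n b f lam U r) r := vv_hasDerivAt T.hn T.hb T.cU hr

theorem z_deriv {r : ℝ} (hr : 0 < r) : HasDerivAt (zz n b f lam mu U V)
    ((rhs f mu V r - rhs f lam U r) - pp n b r * zz n b f lam mu U V r) r := by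
  refine ((vv_hasDerivAt T.hn T.hb T.cV hr).sub (vv_hasDerivAt T.hn T.hb T.cU hr)).congr_deriv ?_
  unfold zz pp
  ring

theorem vd_deriv {r : ℝ} (hr : r ∈ Ioo (0 : ℝ) 1) : HasDerivAt (vd n b f lam U)
    (-(lam * deriv f (U r) * vv n b (rhs f lam U) r) +
      (((n : ℝ) - 1) / r ^ 2 + b' r) * vv n b (rhs f lam U) r - pp n b r * vd n b f lam U r) r := by
  have hd : HasDerivAt f (deriv f (U r)) (U r) :=
    (T.hf.smooth.differentiable (by simp) (U r)).hasDerivAt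
  have h1 : HasDerivAt (rhs f lam U) (lam * (deriv f (U r) * -(vv n b (rhs f lam U) r))) r :=
    (hd.comp r (T.hU.hasDerivAt T.hn T.hb T.hf.cont hr)).const_mul lam
  have h2 : HasDerivAt (pp n b) (-(((n : ℝ) - 1) / r ^ 2) - b' r) r := by
    have h3 := ((hasDerivAt_inv hr.1.ne').const_mul ((n : ℝ) - 1)).fun_sub (T.hb' r hr)
    refine (h3.congr_deriv ?_).congr_of_eventuallyEq ?_
    · ring
    · exact Eventually.of_forall fun t => by unfold pp; rw [div_eq_mul_inv]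
  have h4 := h1.fun_sub (h2.fun_mul (T.v_deriv hr.1))
  refine h4.congr_deriv ?_
  ring

/-- **The lower bound of the derivative of `Φ`.** -/
theorem Phi_deriv {g : ℝ → ℝ} {r g' G : ℝ} (hr : r ∈ Ioo (0 : ℝ) 1) (hg : HasDerivAt g g' r)
    (hg0 : 0 < g r) (hG : g' ^ 2 = 4 * g r * G) :
    ∃ D, HasDerivAt (Phi n b f lam mu U V g) D r ∧
      wt n b r * ((g r * (((n : ℝ) - 1) / r ^ 2 + b' r) - G) * vv n b (rhs f lam U) r ^ 2) ≤ D := by
  have hZ := T.Z_pos (r := r) ⟨hr.1.le, hr.2⟩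
  have h := phi_deriv (w := wt n b) (v := vv n b (rhs f lam U)) (v1 := vd n b f lam U)
    (Z := fun r => V r - U r) (z := zz n b f lam mu U V) (g := g) (r := r) (p := pp n b r)
    (k := lam * deriv f (U r)) (N := ((n : ℝ) - 1) / r ^ 2 + b' r)
    (X := rhs f mu V r - rhs f lam U r) (g' := g') (wt_hasDerivAt T.hn T.hb hr.1) (T.v_deriv hr.1)
    (T.vd_deriv hr) (T.Z_deriv hr) (T.z_deriv hr.1) hg hZ.ne'
  exact ⟨_, h, phi_lower (wt_pos hr.1).le hg0 (T.convex r) hZ hG⟩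

end Two

end Pool.Agent.Helper49.ADV
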