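import Pool.Agent.Helper49.ADV.EstB

/-! # [ADV] EST, part C: the limit at `0` and the outer region -/

set_option autoImplicit false

namespace Pool.Agent.Helper49.ADV

open Set Filter Topology

variable {n : ℕ} {b b' f : ℝ → ℝ} {lam mu : ℝ} {U V : ℝ → ℝ}

namespace Two

variable (T : Two n b b' f lam mu U V)
include T

/-- `q` is bounded near `0` -/
theorem qq_bdd : ∃ C Q : ℝ, 0 ≤ C ∧ 0 ≤ Q ∧ ∀ r ∈ Ioo (0 : ℝ) (1 / 2),
    |vv n b (rhs f lam U) r| ≤ C * r ∧ |qq n b f lam mu U V r| ≤ Q := by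
  obtain ⟨C, C0, hC⟩ := vv_le (n := n) T.hn T.hb
  obtain ⟨H1, hH1⟩ := isCompact_Icc.exists_bound_of_continuousOn (s := Icc (0 : ℝ) 1) T.cU.continuousOn
  obtain ⟨H2, hH2⟩ := isCompact_Icc.exists_bound_of_continuousOn (s := Icc (0 : ℝ) 1) T.cV.continuousOn
  obtain ⟨B0, hB0⟩ := isCompact_Icc.exists_bound_of_continuousOn (s := Icc (0 : ℝ) 1) T.hb.continuousOn
  have H1n : 0 ≤ H1 := (norm_nonneg _).trans (hH1 0 ⟨le_rfl, zero_le_one⟩)
  have H2n : 0 ≤ H2 := (norm_nonneg _).trans (hH2 0 ⟨le_rfl, zero_le_one⟩)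
  have B0n : 0 ≤ B0 := (norm_nonneg _).trans (hB0 0 ⟨le_rfl, zero_le_one⟩)
  have n1 : (0 : ℝ) ≤ (n : ℝ) - 1 := by
    have : (2 : ℝ) ≤ n := by exact_mod_cast T.hn
    linarith
  have hZ := T.Z_pos (r := 1 / 2) ⟨by norm_num, by norm_num⟩
  refine ⟨C * H1, (H1 + ((n : ℝ) - 1) * (C * H1) + B0 * (C * H1)) +
    C * H1 * (C * H2 + C * H1) / (V (1 / 2) - U (1 / 2)), by positivity, ?_, ?_⟩
  · have := div_nonneg (mul_nonneg (mul_nonneg C0.le H1n) (add_nonneg (mul_nonneg C0.le H2n)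
      (mul_nonneg C0.le H1n))) hZ.le
    have := mul_nonneg n1 (mul_nonneg C0.le H1n)
    positivity
  · intro r hr
    have hr1 : r ∈ Icc (0 : ℝ) 1 := ⟨hr.1.le, by linarith [hr.2]⟩
    have v1 := hC _ H1 T.cU hH1 r hr1
    have v2 := hC _ H2 T.cV hH2 r hr1
    refine ⟨v1, ?_⟩
    have v1' : |vv n b (rhs f lam U) r| ≤ C * H1 := by
      refine v1.trans ?_
      have : 0 ≤ C * H1 := by positivity
      nlinarith [hr1.2]
    have v2' : |vv n b (rhs f mu V) r| ≤ C * H2 := by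
      refine v2.trans ?_
      have : 0 ≤ C * H2 := by positivity
      nlinarith [hr1.2]
    have hp : |pp n b r * vv n b (rhs f lam U) r| ≤ ((n : ℝ) - 1) * (C * H1) + B0 * (C * H1) := by
      unfold pp
      rw [sub_mul]
      refine (abs_sub _ _).trans (add_le_add ?_ ?_)
      · rw [abs_mul, abs_div, abs_of_nonneg n1, abs_of_pos hr.1, div_mul_eq_mul_div, div_le_iff₀ hr.1]
        calc ((n : ℝ) - 1) * |vv n b (rhs f lam U) r| ≤ ((n : ℝ) - 1) * (C * H1 * r) :=
              mul_le_mul_of_nonneg_left v1 n1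
          _ = ((n : ℝ) - 1) * (C * H1) * r := by ring
      · rw [abs_mul]
        exact mul_le_mul (hB0 r hr1) v1' (abs_nonneg _) B0n
    have hd : |vd n b f lam U r| ≤ H1 + ((n : ℝ) - 1) * (C * H1) + B0 * (C * H1) := by
      unfold vd
      refine (abs_sub _ _).trans ?_
      have := hH1 r hr1
      rw [Real.norm_eq_abs] at this
      linarith
    have hz : |zz n b f lam mu U V r| ≤ C * H2 + C * H1 := by
      unfold zz
      exact (abs_sub _ _).trans (add_le_add v2' v1')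
    have hZr : V (1 / 2) - U (1 / 2) ≤ V r - U r :=
      (T.Z_anti hr1 ⟨by norm_num, by norm_num⟩ hr.2).le
    unfold qq
    refine (abs_add_le _ _).trans (add_le_add hd ?_)
    rw [abs_div, abs_mul, abs_of_pos (hZ.trans_le hZr)]
    exact div_le_div₀ (by positivity) (mul_le_mul v1' hz (abs_nonneg _) (by positivity)) hZ hZr

theorem Phi_tendsto {al : ℝ} (hal : al < n) :
    Tendsto (Phi n b f lam mu U V (fun r => r ^ (-al))) (𝓝[>] 0) (𝓝 0) := by
  obtain ⟨C, Q, C0, Q0, h⟩ := T.qq_bdd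
  obtain ⟨c0, c1, -, hc1, hw⟩ := wt_bounds (n := n) T.hb
  have hlim : Tendsto (fun r : ℝ => c1 * C * Q * r ^ ((n : ℝ) - al)) (𝓝[>] 0) (𝓝 0) := by
    have h1 : Tendsto (fun r : ℝ => r ^ ((n : ℝ) - al)) (𝓝[>] 0) (𝓝 0) := by
      have := (Real.continuousAt_rpow_const 0 ((n : ℝ) - al) (Or.inr (by linarith))).tendsto
      rw [Real.zero_rpow (by linarith)] at this
      exact this.mono_left nhdsWithin_le_nhds
    have := h1.const_mul (c1 * C * Q)
    rwa [mul_zero] at this
  refine squeeze_zero_norm' ?_ hlim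
  filter_upwards [Ioo_mem_nhdsGT (show (0 : ℝ) < 1 / 2 by norm_num)] with r hr
  obtain ⟨h1, h2⟩ := h r hr
  have hr1 : r ≤ 1 := by linarith [hr.2]
  have hw1 := (hw r hr.1 hr1).2
  unfold Phi
  rw [Real.norm_eq_abs, abs_mul, abs_mul, abs_mul, abs_of_pos (Real.rpow_pos_of_pos hr.1 _),
    abs_of_pos (wt_pos hr.1)]
  have hn1 : 1 ≤ n := by have := T.hn; omega
  have e : c1 * C * Q * r ^ ((n : ℝ) - al) = r ^ (-al) * (c1 * r ^ (n - 1)) * (C * r) * Q := by
    have e1 : r ^ ((n : ℝ) - al) = r ^ (-al) * r ^ n := by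
      rw [← Real.rpow_natCast, ← Real.rpow_add hr.1]
      congr 1
      ring
    have e2 : r ^ n = r ^ (n - 1) * r := by
      rw [← pow_succ]
      congr 1
      omega
    rw [e1, e2]
    ring
  rw [e]
  have hg : 0 < r ^ (-al) := Real.rpow_pos_of_pos hr.1 _
  have hwp := wt_pos (n := n) (b := b) hr.1
  refine mul_le_mul (mul_le_mul (mul_le_mul_of_nonneg_left hw1 hg.le) h1 (abs_nonneg _) ?_) h2
    (abs_nonneg _) ?_
  · have := hr.1
    positivity
  · have := hr.1
    positivity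

/-- the outer region -/
theorem outer {B1 c1 Cv al del : ℝ} (hB1 : ∀ r ∈ Ioo (0 : ℝ) 1, |b' r| ≤ B1) (hc1 : 0 < c1)
    (hw : ∀ r : ℝ, 0 < r → r ≤ 1 → wt n b r ≤ c1) (hd : 0 < del) (hd4 : del ≤ 1 / 4)
    (hv : ∀ r ∈ Icc del (2 * del), vv n b (rhs f lam U) r ≤ Cv) :
    Phi n b f lam mu U V (fun r => r ^ (-al)) del ≤
      c1 * ((B1 * del ^ (-al) + del ^ (-al) / del ^ 2) * Cv ^ 2) * del := by
  set A := del ^ (-al) with hA
  have A0 : 0 < A := Real.rpow_pos_of_pos hd _
  set g : ℝ → ℝ := fun r => A * ((2 * del - r) / del) ^ 2 with hg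
  have e0 : Phi n b f lam mu U V (fun r => r ^ (-al)) del = Phi n b f lam mu U V g del := by
    unfold Phi
    simp only [hg]
    rw [show (2 * del - del) / del = 1 by field_simp; ring]
    ring
  have e1 : Phi n b f lam mu U V g (2 * del) = 0 := by
    unfold Phi
    simp only [hg]
    rw [sub_self, zero_div]
    ring
  have hgd : ∀ r, HasDerivAt g (A * (2 * ((2 * del - r) / del) * (-1 / del))) r := by
    intro r
    have h1 : HasDerivAt (fun r : ℝ => (2 * del - r) / del) (-1 / del) r := by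
      have := ((hasDerivAt_id r).const_sub (2 * del)).div_const del
      exact this
    have h2 := (h1.fun_pow 2).const_mul A
    refine h2.congr_deriv ?_
    simp
  set c3 := c1 * ((B1 * A + A / del ^ 2) * Cv ^ 2) with hc3
  have hB0 : 0 ≤ B1 := (abs_nonneg _).trans (hB1 (1 / 2) ⟨by norm_num, by norm_num⟩)
  have key : ∀ r ∈ Ioo del (2 * del), ∃ D, HasDerivAt (Phi n b f lam mu U V g) D r ∧ -c3 ≤ D := by
    intro r hr
    have r0 : 0 < r := hd.trans hr.1
    have r1 : r < 1 := by linarith [hr.2]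
    have hpos : 0 < (2 * del - r) / del := div_pos (by linarith [hr.2]) hd
    have hle : (2 * del - r) / del ≤ 1 := by
      rw [div_le_one hd]
      linarith [hr.1]
    have hgr : 0 < g r := mul_pos A0 (pow_pos hpos 2)
    obtain ⟨D, hD, hlow⟩ := T.Phi_deriv (r := r) (G := A / del ^ 2) ⟨r0, r1⟩ (hgd r) hgr (by
      simp only [hg]
      field_simp
      ring)
    refine ⟨D, hD, le_trans ?_ hlow⟩
    have hbr := (abs_le.1 (hB1 r ⟨r0, r1⟩)).1
    have hgA : g r ≤ A := by
      simp only [hg]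
      have : ((2 * del - r) / del) ^ 2 ≤ 1 := pow_le_one₀ hpos.le hle
      nlinarith
    have n1 : (0 : ℝ) ≤ ((n : ℝ) - 1) / r ^ 2 := by
      have : (2 : ℝ) ≤ n := by exact_mod_cast T.hn
      apply div_nonneg (by linarith) (sq_nonneg _)
    have hN : -(B1 * A) ≤ g r * (((n : ℝ) - 1) / r ^ 2 + b' r) := by
      have h1 : g r * (-B1) ≤ g r * (((n : ℝ) - 1) / r ^ 2 + b' r) :=
        mul_le_mul_of_nonneg_left (by linarith) hgr.le
      nlinarith
    have hvn : 0 ≤ vv n b (rhs f lam U) r := vv_rhs_nonneg T.hn T.hb T.hf T.hl.le T.hU.1 T.hU0 ⟨r0.le, r1.le⟩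
    have hv2 : vv n b (rhs f lam U) r ^ 2 ≤ Cv ^ 2 :=
      pow_le_pow_left₀ hvn (hv r ⟨hr.1.le, hr.2.le⟩) 2
    have hwr := hw r r0 r1.le
    have hwp := (wt_pos (n := n) (b := b) r0).le
    have hs : 0 ≤ B1 * A + A / del ^ 2 := by positivity
    have h2 : wt n b r * ((B1 * A + A / del ^ 2) * vv n b (rhs f lam U) r ^ 2) ≤ c3 :=
      mul_le_mul hwr (mul_le_mul_of_nonneg_left hv2 hs) (mul_nonneg hs (sq_nonneg _)) hc1.le
    have h3 : -((B1 * A + A / del ^ 2) * vv n b (rhs f lam U) r ^ 2) ≤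
        (g r * (((n : ℝ) - 1) / r ^ 2 + b' r) - A / del ^ 2) * vv n b (rhs f lam U) r ^ 2 := by
      have := mul_le_mul_of_nonneg_right (show -(B1 * A + A / del ^ 2) ≤
        g r * (((n : ℝ) - 1) / r ^ 2 + b' r) - A / del ^ 2 by linarith)
        (sq_nonneg (vv n b (rhs f lam U) r))
      linarith
    have h4 := mul_le_mul_of_nonneg_left h3 hwp
    linarith
  have hcont : ∀ r ∈ Icc del (2 * del), ContinuousAt (Phi n b f lam mu U V g) r := by
    intro r hr
    have r0 : 0 < r := hd.trans_le hr.1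
    have r1 : r < 1 := by linarith [hr.2]
    have hZ := T.Z_pos (r := r) ⟨r0.le, r1⟩
    unfold Phi qq
    exact (((hgd r).continuousAt.mul (wt_cont T.hb).continuousAt).mul
      (T.v_deriv r0).continuousAt).mul ((T.vd_deriv ⟨r0, r1⟩).continuousAt.add
      (((T.v_deriv r0).continuousAt.mul (T.z_deriv r0).continuousAt).div
        (T.Z_deriv ⟨r0, r1⟩).continuousAt hZ.ne'))
  have hm : MonotoneOn (fun r => Phi n b f lam mu U V g r + c3 * r) (Icc del (2 * del)) := by
    refine monotoneOn_of_deriv_nonneg (convex_Icc _ _) ?_ ?_ ?_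
    · exact fun r hr => ((hcont r hr).add (continuousAt_const.mul continuousAt_id)).continuousWithinAt
    · rw [interior_Icc]
      intro r hr
      obtain ⟨D, hD, -⟩ := key r hr
      exact (hD.differentiableAt.add (differentiableAt_id.const_mul _)).differentiableWithinAt
    · rw [interior_Icc]
      intro r hr
      obtain ⟨D, hD, hD2⟩ := key r hr
      have e2 : deriv (fun r => Phi n b f lam mu U V g r + c3 * r) r = D + c3 * 1 :=
        (hD.fun_add ((hasDerivAt_id r).const_mul c3)).deriv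
      rw [e2]
      linarith
  have h5 := hm ⟨le_rfl, by linarith⟩ ⟨by linarith, le_rfl⟩ (show del ≤ 2 * del by linarith)
  simp only [e1] at h5
  rw [e0]
  linarith

end Two

end Pool.Agent.Helper49.ADV
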