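import Pool.Agent.Helper49.ADV.Lin

/-! # [ADV] leaf LIM: limits of solutions, the iteration

`|vv| ≤ C H r` gives a uniform Lipschitz bound for `TT`, dominated convergence twice. -/

set_option autoImplicit false

namespace Pool.Agent.Helper49.ADV

open Set Filter Topology

variable {n : ℕ} {b f : ℝ → ℝ}

private theorem cl_lip (r s : ℝ) : |cl r - cl s| ≤ |r - s| := by
  unfold cl
  rw [max_comm 0, max_comm 0]
  refine (abs_max_sub_max_le_abs _ _ _).trans ?_
  refine (abs_min_sub_min_le_max r 1 s 1).trans ?_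
  rw [sub_self, abs_zero]
  exact max_le le_rfl (abs_nonneg _)

private theorem wt_continuous (hb : Continuous b) : Continuous (wt n b) := by
  unfold wt
  refine (continuous_id.pow _).mul (Real.continuous_exp.comp ?_)
  exact (intervalIntegral.continuous_primitive (fun a c => hb.intervalIntegrable a c) 0).neg

private theorem TT_sub (hn : 2 ≤ n) (hb : Continuous b) {h : ℝ → ℝ} (hh : Continuous h) {K : ℝ}
    (hK : ∀ r ∈ Icc (0 : ℝ) 1, |vv n b h r| ≤ K) {r s : ℝ} (hr : r ∈ Icc (0 : ℝ) 1)
    (hs : s ∈ Icc (0 : ℝ) 1) : |TT n b h r - TT n b h s| ≤ K * |r - s| := by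
  have hi : ∀ x ∈ Icc (0 : ℝ) 1, ∀ y ∈ Icc (0 : ℝ) 1,
      IntervalIntegrable (vv n b h) MeasureTheory.volume x y := by
    intro x hx y hy
    apply ContinuousOn.intervalIntegrable
    refine (vv_cont hn hb hh).mono ?_
    exact ordConnected_Icc.uIcc_subset hx hy
  have h1 : (1 : ℝ) ∈ Icc (0 : ℝ) 1 := ⟨zero_le_one, le_rfl⟩
  have e : TT n b h r - TT n b h s = ∫ t in r..s, vv n b h t := by
    have h3 := intervalIntegral.integral_add_adjacent_intervals (hi r hr s hs) (hi s hs 1 h1)
    unfold TT
    linarith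
  rw [e]
  have h2 := intervalIntegral.norm_integral_le_of_norm_le_const (a := r) (b := s) (C := K)
    (f := vv n b h) (fun x hx => by
      rw [Real.norm_eq_abs]
      apply hK
      exact ordConnected_Icc.uIcc_subset hr hs (uIoc_subset_uIcc hx))
  rw [Real.norm_eq_abs, abs_sub_comm s r] at h2
  exact h2

/-- closedness -/
theorem lim_RS (hn : 2 ≤ n) (hb : Continuous b) (hf : Continuous f) {A B : ℕ → ℝ → ℝ} {lam : ℕ → ℝ}
    {l M : ℝ} {U : ℝ → ℝ} (hB : ∀ k, Continuous (B k))
    (hA : ∀ k r, A k r = TC n b (fun t => lam k * f (B k t)) r) (hM : ∀ k r, |B k r| ≤ M)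
    (hlam : Tendsto lam atTop (𝓝 l)) (hAU : ∀ r, Tendsto (fun k => A k r) atTop (𝓝 (U r)))
    (hBU : ∀ r, Tendsto (fun k => B k r) atTop (𝓝 (U r))) : RS n b f l U := by
  obtain ⟨C, hC, hvv⟩ := vv_le hn hb
  obtain ⟨F, hF⟩ := (isCompact_Icc (a := -M) (b := M)).exists_bound_of_continuousOn hf.continuousOn
  obtain ⟨Λ, hΛ⟩ := hlam.abs.bddAbove_range
  have hΛ' : ∀ k, |lam k| ≤ Λ := fun k => hΛ ⟨k, rfl⟩
  have hF' : ∀ k r, |f (B k r)| ≤ F := by
    intro k r
    have := hF (B k r) (abs_le.1 (hM k r))
    rwa [Real.norm_eq_abs] at this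
  have hΛ0 : 0 ≤ Λ := (abs_nonneg _).trans (hΛ' 0)
  have hH : ∀ k r, |lam k * f (B k r)| ≤ Λ * F := by
    intro k r
    rw [abs_mul]
    exact mul_le_mul (hΛ' k) (hF' k r) (abs_nonneg _) hΛ0
  have hH0 : 0 ≤ Λ * F := (abs_nonneg _).trans (hH 0 0)
  have hhc : ∀ k, Continuous fun t => lam k * f (B k t) := fun k =>
    continuous_const.mul (hf.comp (hB k))
  have hK : ∀ k, ∀ r ∈ Icc (0 : ℝ) 1, |vv n b (fun t => lam k * f (B k t)) r| ≤ C * (Λ * F) := by
    intro k r hr
    refine (hvv _ (Λ * F) (hhc k) (fun r _ => hH k r) r hr).trans ?_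
    exact mul_le_of_le_one_right (by positivity) hr.2
  have hlip : ∀ r s, |U r - U s| ≤ C * (Λ * F) * |r - s| := by
    intro r s
    have h1 : Tendsto (fun k => |A k r - A k s|) atTop (𝓝 |U r - U s|) :=
      ((hAU r).sub (hAU s)).abs
    refine le_of_tendsto h1 (Eventually.of_forall fun k => ?_)
    rw [hA, hA]
    unfold TC
    refine (TT_sub hn hb (hhc k) (hK k) (cl_mem r) (cl_mem s)).trans ?_
    exact mul_le_mul_of_nonneg_left (cl_lip r s) (by positivity)
  have hU : Continuous U := by
    have : LipschitzWith (Real.toNNReal (C * (Λ * F))) U := by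
      apply LipschitzWith.of_dist_le_mul
      intro x y
      rw [Real.dist_eq, Real.dist_eq, Real.coe_toNNReal _ (by positivity)]
      exact hlip x y
    exact this.continuous
  refine ⟨hU, fun r => ?_⟩
  have hpt : ∀ t, Tendsto (fun k => lam k * f (B k t)) atTop (𝓝 (l * f (U t))) := fun t =>
    hlam.mul ((hf.tendsto _).comp (hBU t))
  have hv : ∀ t, Tendsto (fun k => vv n b (fun t => lam k * f (B k t)) t) atTop
      (𝓝 (vv n b (fun t => l * f (U t)) t)) := by
    intro t
    unfold vv
    refine Tendsto.div_const ?_ _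
    refine intervalIntegral.tendsto_integral_filter_of_dominated_convergence
      (fun s => |wt n b s| * (Λ * F)) ?_ ?_ ?_ ?_
    · exact Eventually.of_forall fun k =>
        ((wt_continuous hb).mul (hhc k)).aestronglyMeasurable
    · refine Eventually.of_forall fun k => Eventually.of_forall fun s _ => ?_
      rw [norm_mul, Real.norm_eq_abs, Real.norm_eq_abs]
      exact mul_le_mul_of_nonneg_left (hH k s) (abs_nonneg _)
    · exact (((wt_continuous hb).abs).mul continuous_const).intervalIntegrable _ _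
    · exact Eventually.of_forall fun s _ => (hpt s).const_mul _
  have hlim : Tendsto (fun k => A k r) atTop (𝓝 (TC n b (fun t => l * f (U t)) r)) := by
    have e : (fun k => A k r) = fun k => TC n b (fun t => lam k * f (B k t)) r :=
      funext fun k => hA k r
    rw [e]
    unfold TC TT
    have hsub : uIoc (cl r) 1 ⊆ Icc (0 : ℝ) 1 := by
      refine uIoc_subset_uIcc.trans ?_
      exact ordConnected_Icc.uIcc_subset (cl_mem r) ⟨zero_le_one, le_rfl⟩
    refine intervalIntegral.tendsto_integral_filter_of_dominated_convergence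
      (fun _ => C * (Λ * F)) ?_ ?_ ?_ ?_
    · refine Eventually.of_forall fun k => ?_
      exact ((vv_cont hn hb (hhc k)).mono hsub).aestronglyMeasurable measurableSet_uIoc
    · refine Eventually.of_forall fun k => Eventually.of_forall fun s hs => ?_
      rw [Real.norm_eq_abs]
      exact hK k s (hsub hs)
    · exact intervalIntegrable_const
    · exact Eventually.of_forall fun s _ => hv s
  exact tendsto_nhds_unique (hAU r) hlim

theorem it_continuous (hn : 2 ≤ n) (hb : Continuous b) (hf : Continuous f) (lam : ℝ) (k : ℕ) :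
    Continuous (it n b f lam k) := by
  induction k with
  | zero => exact continuous_const
  | succ k ih => exact TC_continuous hn hb (continuous_const.mul (hf.comp ih))

private theorem TT_zero (r : ℝ) : TT n b (fun _ => 0) r = 0 := by
  unfold TT vv
  simp

theorem it_nonneg (hn : 2 ≤ n) (hb : Continuous b) (hf : Continuous f) (hm : Monotone f)
    (h0 : 0 ≤ f 0) {lam : ℝ} (hl : 0 ≤ lam) (k : ℕ) (r : ℝ) : 0 ≤ it n b f lam k r := by
  induction k generalizing r with
  | zero => exact le_rfl
  | succ k ih =>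
    show 0 ≤ TT n b (fun t => lam * f (it n b f lam k t)) (cl r)
    have h1 := TT_mono hn hb (h₁ := fun _ => 0) (h₂ := fun t => lam * f (it n b f lam k t))
      continuous_const (continuous_const.mul (hf.comp (it_continuous hn hb hf lam k)))
      (fun t _ => mul_nonneg hl (h0.trans (hm (ih t)))) (cl_mem r)
    rwa [TT_zero] at h1

theorem it_mono (hn : 2 ≤ n) (hb : Continuous b) (hf : Continuous f) (hm : Monotone f)
    (h0 : 0 ≤ f 0) {lam : ℝ} (hl : 0 ≤ lam) (k : ℕ) (r : ℝ) :
    it n b f lam k r ≤ it n b f lam (k + 1) r := by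
  induction k generalizing r with
  | zero => exact it_nonneg hn hb hf hm h0 hl 1 r
  | succ k ih =>
    show TT n b (fun t => lam * f (it n b f lam k t)) (cl r) ≤
      TT n b (fun t => lam * f (it n b f lam (k + 1) t)) (cl r)
    exact TT_mono hn hb (continuous_const.mul (hf.comp (it_continuous hn hb hf lam k)))
      (continuous_const.mul (hf.comp (it_continuous hn hb hf lam (k + 1))))
      (fun t _ => mul_le_mul_of_nonneg_left (hm (ih t)) hl) (cl_mem r)

/-- a bounded iteration converges to a radial solution -/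
theorem it_lim (hn : 2 ≤ n) (hb : Continuous b) (hf : Continuous f) (hm : Monotone f)
    (h0 : 0 ≤ f 0) {lam M : ℝ} (hl : 0 ≤ lam) (hM : ∀ k r, it n b f lam k r ≤ M) :
    ∃ U, RS n b f lam U ∧ (∀ r, Tendsto (fun k => it n b f lam k r) atTop (𝓝 (U r))) ∧
      ∀ k r, it n b f lam k r ≤ U r := by
  have hmono : ∀ r, Monotone fun k => it n b f lam k r := fun r =>
    monotone_nat_of_le_succ fun k => it_mono hn hb hf hm h0 hl k r
  have hbdd : ∀ r, BddAbove (range fun k => it n b f lam k r) := fun r =>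
    ⟨M, by rintro _ ⟨k, rfl⟩; exact hM k r⟩
  have hT : ∀ r, Tendsto (fun k => it n b f lam k r) atTop (𝓝 (⨆ k, it n b f lam k r)) :=
    fun r => tendsto_atTop_ciSup (hmono r) (hbdd r)
  refine ⟨fun r => ⨆ k, it n b f lam k r, ?_, hT, fun k r => le_ciSup (hbdd r) k⟩
  refine lim_RS hn hb hf (A := fun k => it n b f lam (k + 1)) (B := fun k => it n b f lam k)
    (lam := fun _ => lam) (M := M) (fun k => it_continuous hn hb hf lam k) (fun k r => rfl)
    (fun k r => ?_) tendsto_const_nhds (fun r => (hT r).comp (tendsto_add_atTop_nat 1)) hT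
  rw [abs_of_nonneg (it_nonneg hn hb hf hm h0 hl k r)]
  exact hM k r

end Pool.Agent.Helper49.ADV
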