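import Pool.Agent.Helper49.ADV.Defs

/-! # [ADV] leaf LIN: the linear radial problem -/

set_option autoImplicit false

namespace Pool.Agent.Helper49.ADV

open Set Filter Topology

variable {n : ℕ} {b h : ℝ → ℝ}

theorem cl_mem (r : ℝ) : cl r ∈ Icc (0 : ℝ) 1 :=
  ⟨le_max_left _ _, max_le zero_le_one (min_le_right _ _)⟩

theorem cl_of_mem {r : ℝ} (hr : r ∈ Icc (0 : ℝ) 1) : cl r = r := by
  unfold cl
  rw [min_eq_left hr.2, max_eq_right hr.1]

theorem wt_pos {r : ℝ} (hr : 0 < r) : 0 < wt n b r :=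
  mul_pos (pow_pos hr _) (Real.exp_pos _)

theorem wt_nonneg {r : ℝ} (hr : 0 ≤ r) : 0 ≤ wt n b r :=
  mul_nonneg (pow_nonneg hr _) (Real.exp_pos _).le

theorem prim_hasDerivAt (hb : Continuous b) (r : ℝ) :
    HasDerivAt (fun r : ℝ => ∫ t in (0 : ℝ)..r, b t) (b r) r :=
  (hb.integral_hasStrictDerivAt 0 r).hasDerivAt

theorem wt_continuous (hb : Continuous b) : Continuous (wt n b) := by
  have h1 : Continuous (fun r : ℝ => ∫ t in (0 : ℝ)..r, b t) :=
    continuous_iff_continuousAt.2 fun r => (prim_hasDerivAt hb r).continuousAt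
  exact (continuous_pow _).mul (Real.continuous_exp.comp h1.neg)

theorem wt_hasDerivAt (hn : 2 ≤ n) (hb : Continuous b) {r : ℝ} (hr : 0 < r) :
    HasDerivAt (wt n b) ((((n : ℝ) - 1) / r - b r) * wt n b r) r := by
  obtain ⟨m, rfl⟩ := Nat.exists_eq_add_of_le' hn
  have h1 : HasDerivAt (fun r : ℝ => r ^ (m + 1)) (((m + 1 : ℕ) : ℝ) * r ^ m) r := by
    have := hasDerivAt_pow (m + 1) r
    simpa using this
  have h2 : HasDerivAt (fun r : ℝ => Real.exp (-∫ t in (0 : ℝ)..r, b t))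
      (Real.exp (-∫ t in (0 : ℝ)..r, b t) * (-(b r))) r := (prim_hasDerivAt hb r).neg.exp
  have h3 := h1.mul h2
  have e : (((m + 1 : ℕ) : ℝ) * r ^ m) * Real.exp (-∫ t in (0 : ℝ)..r, b t) +
      r ^ (m + 1) * (Real.exp (-∫ t in (0 : ℝ)..r, b t) * (-(b r))) =
      (((((m + 2 : ℕ) : ℝ) - 1) / r - b r) * wt (m + 2) b r) := by
    have e1 : m + 2 - 1 = m + 1 := rfl
    rw [wt, e1]
    push_cast
    field_simp
    ring
  rw [e] at h3
  exact h3

theorem wt_bounds (hb : Continuous b) : ∃ c0 c1 : ℝ, 0 < c0 ∧ 0 < c1 ∧ ∀ r : ℝ, 0 < r → r ≤ 1 →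
    c0 * r ^ (n - 1) ≤ wt n b r ∧ wt n b r ≤ c1 * r ^ (n - 1) := by
  obtain ⟨M, hM⟩ := (isCompact_Icc (a := (0 : ℝ)) (b := 1)).exists_bound_of_continuousOn
    hb.continuousOn
  have hM0 : 0 ≤ M := (norm_nonneg _).trans (hM 0 ⟨le_rfl, zero_le_one⟩)
  refine ⟨Real.exp (-M), Real.exp M, Real.exp_pos _, Real.exp_pos _, fun r hr hr1 => ?_⟩
  have h1 : ‖∫ t in (0 : ℝ)..r, b t‖ ≤ M * |r - 0| := by
    refine intervalIntegral.norm_integral_le_of_norm_le_const fun t ht => ?_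
    rw [uIoc_of_le hr.le] at ht
    exact hM t ⟨ht.1.le, ht.2.trans hr1⟩
  rw [sub_zero, abs_of_pos hr, Real.norm_eq_abs] at h1
  have h2 : |∫ t in (0 : ℝ)..r, b t| ≤ M := by
    refine h1.trans ?_
    nlinarith
  have h3 := abs_le.1 h2
  have hp : 0 ≤ r ^ (n - 1) := pow_nonneg hr.le _
  constructor
  · rw [wt, mul_comm]
    exact mul_le_mul_of_nonneg_left (Real.exp_le_exp.2 (by linarith)) hp
  · rw [wt, mul_comm (Real.exp M)]
    exact mul_le_mul_of_nonneg_left (Real.exp_le_exp.2 (by linarith)) hp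

theorem vv_hasDerivAt (hn : 2 ≤ n) (hb : Continuous b) (hh : Continuous h) {r : ℝ} (hr : 0 < r) :
    HasDerivAt (vv n b h) (h r - (((n : ℝ) - 1) / r - b r) * vv n b h r) r := by
  have h1 : HasDerivAt (fun r : ℝ => ∫ t in (0 : ℝ)..r, wt n b t * h t) (wt n b r * h r) r :=
    prim_hasDerivAt ((wt_continuous hb).mul hh) r
  have hw := wt_pos (n := n) (b := b) hr
  have h2 := h1.div (wt_hasDerivAt hn hb hr) hw.ne'
  refine h2.congr_deriv ?_
  rw [vv]
  field_simp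

/-- the constant does not depend on `h` -/
theorem vv_le (hn : 2 ≤ n) (hb : Continuous b) : ∃ C : ℝ, 0 < C ∧ ∀ (h : ℝ → ℝ) (H : ℝ), Continuous h →
    (∀ r ∈ Icc (0 : ℝ) 1, |h r| ≤ H) → ∀ r ∈ Icc (0 : ℝ) 1, |vv n b h r| ≤ C * H * r := by
  obtain ⟨c0, c1, hc0, hc1, hc⟩ := wt_bounds (n := n) hb
  refine ⟨c1 / c0, div_pos hc1 hc0, fun h H _ hH r hr => ?_⟩
  have hH0 : 0 ≤ H := (abs_nonneg _).trans (hH 0 ⟨le_rfl, zero_le_one⟩)
  rcases eq_or_lt_of_le hr.1 with h0 | h0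
  · rw [← h0, vv]
    simp
  · have h1 : ‖∫ t in (0 : ℝ)..r, wt n b t * h t‖ ≤ (c1 * r ^ (n - 1) * H) * |r - 0| := by
      refine intervalIntegral.norm_integral_le_of_norm_le_const fun t ht => ?_
      rw [uIoc_of_le h0.le] at ht
      have ht1 : t ≤ 1 := ht.2.trans hr.2
      rw [Real.norm_eq_abs, abs_mul, abs_of_pos (wt_pos ht.1)]
      refine mul_le_mul ?_ (hH t ⟨ht.1.le, ht1⟩) (abs_nonneg _) (by positivity)
      refine (hc t ht.1 ht1).2.trans ?_
      exact mul_le_mul_of_nonneg_left (pow_le_pow_left₀ ht.1.le ht.2 _) hc1.le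
    rw [sub_zero, abs_of_pos h0, Real.norm_eq_abs] at h1
    have hw := wt_pos (n := n) (b := b) h0
    rw [vv, abs_div, abs_of_pos hw, div_le_iff₀ hw]
    refine h1.trans ?_
    have h2 := (hc r h0 hr.2).1
    have h3 : c1 / c0 * H * r * (c0 * r ^ (n - 1)) ≤ c1 / c0 * H * r * wt n b r :=
      mul_le_mul_of_nonneg_left h2 (by positivity)
    refine le_trans (le_of_eq ?_) h3
    field_simp

theorem vv_mono (hn : 2 ≤ n) (hb : Continuous b) {h₁ h₂ : ℝ → ℝ} (hh₁ : Continuous h₁)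
    (hh₂ : Continuous h₂) (hle : ∀ r ∈ Icc (0 : ℝ) 1, h₁ r ≤ h₂ r) {r : ℝ} (hr : r ∈ Icc (0 : ℝ) 1) :
    vv n b h₁ r ≤ vv n b h₂ r := by
  unfold vv
  refine div_le_div_of_nonneg_right ?_ (wt_nonneg hr.1)
  refine intervalIntegral.integral_mono_on hr.1 (((wt_continuous hb).mul hh₁).intervalIntegrable _ _)
    (((wt_continuous hb).mul hh₂).intervalIntegrable _ _) fun t ht => ?_
  exact mul_le_mul_of_nonneg_left (hle t ⟨ht.1, ht.2.trans hr.2⟩) (wt_nonneg ht.1)

theorem vv_pos (hn : 2 ≤ n) (hb : Continuous b) (hh : Continuous h)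
    (hp : ∀ r ∈ Icc (0 : ℝ) 1, 0 < h r) {r : ℝ} (hr : r ∈ Ioc (0 : ℝ) 1) : 0 < vv n b h r := by
  refine div_pos ?_ (wt_pos hr.1)
  refine intervalIntegral.intervalIntegral_pos_of_pos_on
    (((wt_continuous hb).mul hh).intervalIntegrable _ _) (fun t ht => ?_) hr.1
  exact mul_pos (wt_pos ht.1) (hp t ⟨ht.1.le, ht.2.le.trans hr.2⟩)

theorem vv_zero : vv n b h 0 = 0 := by
  simp [vv]

theorem vv_cont (hn : 2 ≤ n) (hb : Continuous b) (hh : Continuous h) :
    ContinuousOn (vv n b h) (Icc 0 1) := by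
  intro r hr
  rcases eq_or_lt_of_le hr.1 with h0 | h0
  · subst h0
    obtain ⟨C, hC, hle⟩ := vv_le hn hb
    obtain ⟨H, hH⟩ := (isCompact_Icc (a := (0 : ℝ)) (b := 1)).exists_bound_of_continuousOn
      hh.continuousOn
    have hb' := hle h H hh (fun r hr => hH r hr)
    rw [ContinuousWithinAt, vv_zero]
    have h1 : Tendsto (fun r : ℝ => C * H * r) (𝓝[Icc 0 1] 0) (𝓝 0) := by
      have : Tendsto (fun r : ℝ => C * H * r) (𝓝 0) (𝓝 (C * H * 0)) :=
        (continuous_const.mul continuous_id).tendsto 0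
      rw [mul_zero] at this
      exact this.mono_left nhdsWithin_le_nhds
    refine squeeze_zero_norm' ?_ h1
    filter_upwards [self_mem_nhdsWithin] with t ht
    exact hb' t ht
  · exact (vv_hasDerivAt hn hb hh h0).continuousAt.continuousWithinAt

theorem vv_div_tendsto (hn : 2 ≤ n) (hb : Continuous b) (hh : Continuous h) :
    Tendsto (fun r => vv n b h r / r) (𝓝[>] 0) (𝓝 (h 0 / n)) := by
  have hn0 : (0 : ℝ) < (n : ℝ) := by exact_mod_cast (by omega : 0 < n)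
  have hwc := wt_continuous (n := n) hb
  have hI : ∀ᶠ r in 𝓝[>] (0 : ℝ), HasDerivAt (fun r : ℝ => ∫ t in (0 : ℝ)..r, wt n b t * h t)
      (wt n b r * h r) r := Eventually.of_forall fun r => prim_hasDerivAt (hwc.mul hh) r
  have hG : ∀ᶠ r in 𝓝[>] (0 : ℝ), HasDerivAt (fun r : ℝ => r * wt n b r)
      (wt n b r * ((n : ℝ) - r * b r)) r := by
    filter_upwards [self_mem_nhdsWithin] with r hr
    have hr' : (0 : ℝ) < r := hr
    refine ((hasDerivAt_id r).mul (wt_hasDerivAt hn hb hr')).congr_deriv ?_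
    simp only [id_eq]
    field_simp
    ring
  have hcn : Tendsto (fun r : ℝ => (n : ℝ) - r * b r) (𝓝[>] 0) (𝓝 (n : ℝ)) := by
    have : Tendsto (fun r : ℝ => (n : ℝ) - r * b r) (𝓝 0) (𝓝 ((n : ℝ) - 0 * b 0)) :=
      (continuous_const.sub (continuous_id.mul hb)).tendsto 0
    rw [zero_mul, sub_zero] at this
    exact this.mono_left nhdsWithin_le_nhds
  have hne : ∀ᶠ r in 𝓝[>] (0 : ℝ), wt n b r * ((n : ℝ) - r * b r) ≠ 0 := by
    filter_upwards [self_mem_nhdsWithin, hcn.eventually (lt_mem_nhds hn0)] with r hr hr2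
    exact (mul_pos (wt_pos hr) hr2).ne'
  have hfa : Tendsto (fun r : ℝ => ∫ t in (0 : ℝ)..r, wt n b t * h t) (𝓝[>] 0) (𝓝 0) := by
    have h1 := (prim_hasDerivAt (hwc.mul hh) (0 : ℝ)).continuousAt.tendsto
    rw [intervalIntegral.integral_same] at h1
    exact h1.mono_left nhdsWithin_le_nhds
  have hga : Tendsto (fun r : ℝ => r * wt n b r) (𝓝[>] 0) (𝓝 0) := by
    have : Tendsto (fun r : ℝ => r * wt n b r) (𝓝 0) (𝓝 (0 * wt n b 0)) :=
      (continuous_id.mul hwc).tendsto 0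
    rw [zero_mul] at this
    exact this.mono_left nhdsWithin_le_nhds
  have hdiv : Tendsto (fun r : ℝ => (wt n b r * h r) / (wt n b r * ((n : ℝ) - r * b r))) (𝓝[>] 0)
      (𝓝 (h 0 / n)) := by
    have h1 : Tendsto (fun r : ℝ => h r / ((n : ℝ) - r * b r)) (𝓝[>] 0) (𝓝 (h 0 / n)) :=
      ((hh.tendsto 0).mono_left nhdsWithin_le_nhds).div hcn hn0.ne'
    refine h1.congr' ?_
    filter_upwards [self_mem_nhdsWithin] with r hr
    rw [mul_div_mul_left _ _ (wt_pos hr).ne']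
  have h2 := HasDerivAt.lhopital_zero_nhdsGT hI hG hne hfa hga hdiv
  refine h2.congr' ?_
  filter_upwards [self_mem_nhdsWithin] with r hr
  rw [vv, div_div, mul_comm r]

theorem TT_hasDerivAt (hn : 2 ≤ n) (hb : Continuous b) (hh : Continuous h) {r : ℝ}
    (hr : r ∈ Ioo (0 : ℝ) 1) : HasDerivAt (TT n b h) (-(vv n b h r)) r := by
  have hc := vv_cont hn hb hh
  have hI : IntervalIntegrable (vv n b h) MeasureTheory.volume r 1 := by
    refine ContinuousOn.intervalIntegrable ?_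
    rw [uIcc_of_le hr.2.le]
    exact hc.mono (Icc_subset_Icc_left hr.1.le)
  have hm : StronglyMeasurableAtFilter (vv n b h) (𝓝 r) MeasureTheory.volume :=
    (hc.mono Ioo_subset_Icc_self).stronglyMeasurableAtFilter isOpen_Ioo r hr
  exact intervalIntegral.integral_hasDerivAt_left hI hm
    (vv_hasDerivAt hn hb hh hr.1).continuousAt

theorem TT_cont (hn : 2 ≤ n) (hb : Continuous b) (hh : Continuous h) :
    ContinuousOn (TT n b h) (Icc 0 1) := by
  have hc := vv_cont hn hb hh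
  have h1 : MeasureTheory.IntegrableOn (vv n b h) (uIcc 0 1) MeasureTheory.volume := by
    rw [uIcc_of_le zero_le_one]
    exact hc.integrableOn_compact isCompact_Icc
  have h2 := intervalIntegral.continuousOn_primitive_interval_left h1
  rw [uIcc_of_le zero_le_one] at h2
  exact h2

theorem TT_one : TT n b h 1 = 0 := by
  rw [TT, intervalIntegral.integral_same]

theorem TT_mono (hn : 2 ≤ n) (hb : Continuous b) {h₁ h₂ : ℝ → ℝ} (hh₁ : Continuous h₁)
    (hh₂ : Continuous h₂) (hle : ∀ r ∈ Icc (0 : ℝ) 1, h₁ r ≤ h₂ r) {r : ℝ} (hr : r ∈ Icc (0 : ℝ) 1) :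
    TT n b h₁ r ≤ TT n b h₂ r := by
  have hi : ∀ g : ℝ → ℝ, Continuous g → IntervalIntegrable (vv n b g) MeasureTheory.volume r 1 := by
    intro g hg
    refine ContinuousOn.intervalIntegrable ?_
    rw [uIcc_of_le hr.2]
    exact (vv_cont hn hb hg).mono (Icc_subset_Icc_left hr.1)
  refine intervalIntegral.integral_mono_on hr.2 (hi _ hh₁) (hi _ hh₂) fun t ht => ?_
  exact vv_mono hn hb hh₁ hh₂ hle ⟨hr.1.trans ht.1, ht.2⟩

theorem TC_continuous (hn : 2 ≤ n) (hb : Continuous b) (hh : Continuous h) :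
    Continuous (TC n b h) := by
  have hcl : Continuous cl := continuous_const.max (continuous_id.min continuous_const)
  exact (TT_cont hn hb hh).comp_continuous hcl cl_mem

end Pool.Agent.Helper49.ADV
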