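import Pool.Agent.Helper49.ADV.Defs

/-! # [ADV] leaf MAX: the comparison principle

At an interior minimum the gradient vanishes and `lap D ≥ 0`; strictness from the barrier
`ψ x = K - exp (α x₀)`, `α > C`, `K = exp α`. -/

set_option autoImplicit false

namespace Pool.Agent.Helper49.ADV

open Set Metric Filter Topology

/-- the second derivative at a local minimum -/
private theorem max_snd {h h' : ℝ → ℝ} {s : ℝ} (hmin : IsLocalMin h 0)
    (hd : ∀ᶠ t in 𝓝 (0 : ℝ), HasDerivAt h (h' t) t) (hs : HasDerivAt h' s 0) : 0 ≤ s := by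
  by_contra hneg
  push Not at hneg
  have h1 : deriv h =ᶠ[𝓝 0] h' := hd.mono fun t ht => ht.deriv
  have h2 : deriv (deriv h) 0 = s := by rw [h1.deriv_eq, hs.deriv]
  have h3 : deriv h 0 = 0 := hmin.deriv_eq_zero
  have h4 : ContinuousAt h 0 := hd.self_of_nhds.continuousAt
  have h5 : IsLocalMax h 0 := isLocalMax_of_deriv_deriv_neg (by rw [h2]; exact hneg) h3 h4
  have h6 : h =ᶠ[𝓝 0] fun _ => h 0 := by
    filter_upwards [hmin, h5] with t ht1 ht2
    exact le_antisymm ht2 ht1
  have h7 : deriv (deriv h) 0 = 0 := by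
    have h8 : deriv h =ᶠ[𝓝 0] fun _ => (0 : ℝ) := by
      have h9 := h6.deriv
      simpa using h9
    rw [h8.deriv_eq]
    simp
  rw [h2] at h7
  exact absurd h7 hneg.ne

section

variable {n : ℕ} (i0 : Fin n) (α ε K : ℝ) (D : E n → ℝ) (x v : E n)

/-- the function along a line -/
private noncomputable def mh (t : ℝ) : ℝ :=
  D (x + t • v) + ε * (K - Real.exp (α * (x i0 + t * v i0)))

/-- its derivative -/
private noncomputable def mh' (t : ℝ) : ℝ :=
  fderiv ℝ D (x + t • v) v + ε * (-(Real.exp (α * (x i0 + t * v i0)) * (α * v i0)))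

private theorem line_deriv (t : ℝ) : HasDerivAt (fun t : ℝ => x + t • v) v t := by
  have h := ((hasDerivAt_id t).smul_const v).const_add x
  simpa using h

private theorem exp_deriv (t : ℝ) : HasDerivAt (fun t : ℝ => Real.exp (α * (x i0 + t * v i0)))
    (Real.exp (α * (x i0 + t * v i0)) * (α * v i0)) t := by
  have h1 : HasDerivAt (fun t : ℝ => α * (x i0 + t * v i0)) (α * v i0) t := by
    have h := (((hasDerivAt_id t).mul_const (v i0)).const_add (x i0)).const_mul α
    simpa using h
  exact h1.exp

private theorem mh_deriv (hx : x ∈ ball (0 : E n) 1) (hD2 : ContDiffOn ℝ 2 D (ball 0 1)) :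
    ∀ᶠ t in 𝓝 (0 : ℝ), HasDerivAt (mh i0 α ε K D x v) (mh' i0 α ε D x v t) t := by
  have h1 : ∀ᶠ t in 𝓝 (0 : ℝ), x + t • v ∈ ball (0 : E n) 1 := by
    have hc : ContinuousAt (fun t : ℝ => x + t • v) 0 := (line_deriv x v 0).continuousAt
    apply hc.eventually_mem
    apply isOpen_ball.mem_nhds
    simpa using hx
  filter_upwards [h1] with t ht
  have h2 : DifferentiableAt ℝ D (x + t • v) :=
    ((hD2.contDiffAt (isOpen_ball.mem_nhds ht)).differentiableAt (by norm_num))
  have h3 : HasDerivAt (fun t : ℝ => D (x + t • v)) (fderiv ℝ D (x + t • v) v) t :=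
    h2.hasFDerivAt.comp_hasDerivAt t (line_deriv x v t)
  have h4 := ((exp_deriv i0 α x v t).const_sub K).const_mul ε
  exact h3.add h4

private theorem mh_deriv2 (hx : x ∈ ball (0 : E n) 1) (hD2 : ContDiffOn ℝ 2 D (ball 0 1)) :
    HasDerivAt (mh' i0 α ε D x v)
      (fderiv ℝ (fun y => fderiv ℝ D y v) x v +
        ε * (-(Real.exp (α * x i0) * (α * v i0) * (α * v i0)))) 0 := by
  have h1 : ContDiffAt ℝ 2 D x := hD2.contDiffAt (isOpen_ball.mem_nhds hx)
  have h2 : DifferentiableAt ℝ (fderiv ℝ D) x := by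
    have h3 : ContDiffAt ℝ 1 (fderiv ℝ D) x := h1.fderiv_right (by norm_num)
    exact h3.differentiableAt (by norm_num)
  have h4 : DifferentiableAt ℝ (fun y => fderiv ℝ D y v) x := h2.clm_apply (differentiableAt_const v)
  have h5 : HasDerivAt (fun t : ℝ => fderiv ℝ D (x + t • v) v)
      (fderiv ℝ (fun y => fderiv ℝ D y v) x v) 0 := by
    have h6 : HasFDerivAt (fun y => fderiv ℝ D y v) (fderiv ℝ (fun y => fderiv ℝ D y v) x)
        (x + (0 : ℝ) • v) := by
      rw [zero_smul, add_zero]
      exact h4.hasFDerivAt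
    exact h6.comp_hasDerivAt (0 : ℝ) (line_deriv x v 0)
  have h7 := (((exp_deriv i0 α x v 0).mul_const (α * v i0)).neg).const_mul ε
  have h8 := h5.add h7
  rw [zero_mul, add_zero] at h8
  exact h8

end

theorem comparison {n : ℕ} (hn : 1 ≤ n) {c : E n → E n} {C : ℝ} (hc : ∀ x ∈ ball (0 : E n) 1, ‖c x‖ ≤ C)
    {D : E n → ℝ} (hD : ContinuousOn D (closedBall 0 1)) (hD2 : ContDiffOn ℝ 2 D (ball 0 1))
    (hp : ∀ x ∈ ball (0 : E n) 1, 0 ≤ -(lap D x) + fderiv ℝ D x (c x))
    (hb : ∀ x ∈ sphere (0 : E n) 1, 0 ≤ D x) : ∀ x ∈ closedBall (0 : E n) 1, 0 ≤ D x := by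
  have hC0 : 0 ≤ C := (norm_nonneg _).trans (hc 0 (by simp))
  set i0 : Fin n := ⟨0, by omega⟩ with hi0
  set α : ℝ := C + 1 with hα
  have hα0 : 0 < α := by linarith
  set K : ℝ := Real.exp α with hK
  have hcoord : ∀ x ∈ closedBall (0 : E n) 1, x i0 ≤ 1 := by
    intro x hx
    have h1 : ‖x i0‖ ≤ ‖x‖ := PiLp.norm_apply_le x i0
    rw [mem_closedBall, dist_zero_right] at hx
    exact (le_abs_self _).trans (h1.trans hx)
  have hψ : ∀ x ∈ closedBall (0 : E n) 1, 0 ≤ K - Real.exp (α * x i0) := by
    intro x hx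
    have h1 : Real.exp (α * x i0) ≤ Real.exp α := by
      apply Real.exp_le_exp.2
      have := hcoord x hx
      nlinarith
    linarith
  -- the perturbed function is nonnegative
  have key : ∀ ε : ℝ, 0 < ε → ∀ x ∈ closedBall (0 : E n) 1,
      0 ≤ D x + ε * (K - Real.exp (α * x i0)) := by
    intro ε hε
    have hcont : ContinuousOn (fun x : E n => D x + ε * (K - Real.exp (α * x i0))) (closedBall 0 1) := by
      apply hD.add
      apply Continuous.continuousOn
      fun_prop
    obtain ⟨z, hz, hmin⟩ := (isCompact_closedBall (0 : E n) 1).exists_isMinOn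
      ⟨0, by simp⟩ hcont
    suffices hz0 : 0 ≤ D z + ε * (K - Real.exp (α * z i0)) from fun x hx => hz0.trans (hmin hx)
    rcases (mem_closedBall.1 hz).lt_or_eq with hlt | heq
    · exfalso
      have hzb : z ∈ ball (0 : E n) 1 := hlt
      have hloc : ∀ v : E n, IsLocalMin (mh i0 α ε K D z v) 0 := by
        intro v
        have h1 : ∀ᶠ t in 𝓝 (0 : ℝ), z + t • v ∈ ball (0 : E n) 1 := by
          have hc : ContinuousAt (fun t : ℝ => z + t • v) 0 := (line_deriv z v 0).continuousAt
          apply hc.eventually_mem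
          apply isOpen_ball.mem_nhds
          simpa using hzb
        filter_upwards [h1] with t ht
        have h2 := hmin (ball_subset_closedBall ht)
        simp only [mh]
        simpa using h2
      -- the gradient
      have hgrad : fderiv ℝ D z (c z) = ε * (Real.exp (α * z i0) * (α * c z i0)) := by
        have h1 := (mh_deriv i0 α ε K D z (c z) hzb hD2).self_of_nhds
        have h2 := (hloc (c z)).hasDerivAt_eq_zero h1
        simp only [mh', zero_smul, add_zero, zero_mul] at h2
        linarith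
      -- the second derivatives
      have hsnd : ∀ i : Fin n, 0 ≤
          fderiv ℝ (fun y => fderiv ℝ D y (EuclideanSpace.single i 1)) z (EuclideanSpace.single i 1) +
            ε * (-(Real.exp (α * z i0) * (α * (EuclideanSpace.single i (1 : ℝ) : E n) i0) *
              (α * (EuclideanSpace.single i (1 : ℝ) : E n) i0))) := fun i =>
        max_snd (hloc _) (mh_deriv i0 α ε K D z _ hzb hD2) (mh_deriv2 i0 α ε D z _ hzb hD2)
      have hsum := Finset.sum_nonneg fun i (_ : i ∈ (Finset.univ : Finset (Fin n))) => hsnd i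
      rw [Finset.sum_add_distrib] at hsum
      have hs2 : ∑ i : Fin n, ε * (-(Real.exp (α * z i0) *
          (α * (EuclideanSpace.single i (1 : ℝ) : E n) i0) *
            (α * (EuclideanSpace.single i (1 : ℝ) : E n) i0))) =
          -(ε * (Real.exp (α * z i0) * (α * α))) := by
        rw [Finset.sum_eq_single i0]
        · rw [EuclideanSpace.single_apply, if_pos rfl]
          ring
        · intro i _ hi
          rw [EuclideanSpace.single_apply, if_neg (Ne.symm hi)]
          ring
        · intro h
          exact absurd (Finset.mem_univ _) h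
      rw [hs2] at hsum
      have hlap : lap D z = ∑ i : Fin n,
        fderiv ℝ (fun y => fderiv ℝ D y (EuclideanSpace.single i 1)) z (EuclideanSpace.single i 1) := rfl
      have h1 := hp z hzb
      rw [hlap, hgrad] at h1
      have h2 : c z i0 ≤ C := by
        have h3 : ‖c z i0‖ ≤ ‖c z‖ := PiLp.norm_apply_le (c z) i0
        exact (le_abs_self _).trans (h3.trans (hc z hzb))
      have h4 : 0 < ε * (Real.exp (α * z i0) * α) := by positivity
      have h5 : ε * (Real.exp (α * z i0) * α) * (c z i0 - α) < 0 :=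
        mul_neg_of_pos_of_neg h4 (by linarith)
      nlinarith
    · have hzs : z ∈ sphere (0 : E n) 1 := heq
      exact add_nonneg (hb z hzs) (mul_nonneg hε.le (hψ z hz))
  intro x hx
  by_contra hneg
  push Not at hneg
  have hKpos : 0 < K := Real.exp_pos α
  have h1 := key (-D x / (2 * K)) (by
    apply div_pos
    · linarith
    · positivity) x hx
  have h2 : K - Real.exp (α * x i0) ≤ K := by
    have := Real.exp_pos (α * x i0)
    linarith
  have h3 : -D x / (2 * K) * (K - Real.exp (α * x i0)) ≤ -D x / (2 * K) * K := by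
    apply mul_le_mul_of_nonneg_left h2
    apply div_nonneg
    · linarith
    · positivity
  have h4 : -D x / (2 * K) * K = -D x / 2 := by
    field_simp
  linarith

end Pool.Agent.Helper49.ADV
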